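import Pool.Agent.Lib.MP_77c30a_nt.Mid

/-! Putting the local contributions together. -/

open Polynomial Finset IsLocalRing

namespace Pool.Agent.Lib.MP_77c30a_nt

variable {K : Type*} [Field K] {O : ValuationSubring K}

theorem assemble {Γ : Type*} [LinearOrderedCommGroupWithZero Γ] (v : Valuation K Γ)
    {ι : Type*} [Fintype ι] [DecidableEq ι] (γ : ι → K) (A : Finset ι) {w c x : Γ}
    (h1 : ∀ i, i ∉ A → v (γ i) ≤ 1) (h2 : ∀ i ∈ A, 1 < v (γ i))
    (h3 : ∀ i, i ∉ A → c * ∏ j ∈ univ.erase i, v (γ j - γ i) = w)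
    (h4 : c * ∏ i ∈ A, v (γ i) = 1) (hd : 0 < Fintype.card ι)
    (hx : c * x = c ^ (Fintype.card ι - 1) * ∏ i, (c * ∏ j ∈ univ.erase i, v (γ j - γ i))) :
    x * c ^ 2 = c ^ (2 * A.card) * w ^ (Fintype.card ι - A.card) *
      ∏ i ∈ A, ∏ j ∈ A.erase i, v (γ j - γ i) := by
  set μ := Fintype.card ι - A.card with hμ
  have hle : A.card ≤ Fintype.card ι := card_le_univ A
  have e1 : ∏ i ∈ Aᶜ, (c * ∏ j ∈ univ.erase i, v (γ j - γ i)) = w ^ μ := by
    rw [prod_congr rfl fun i hi => h3 i (mem_compl.1 hi), prod_const, card_compl]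
  have e2 : ∀ i ∈ A, ∏ j ∈ univ.erase i, v (γ j - γ i) =
      (∏ j ∈ A.erase i, v (γ j - γ i)) * v (γ i) ^ μ := by
    intro i hi
    have e3 : univ.erase i = A.erase i ∪ Aᶜ := by
      ext j
      by_cases hj : j ∈ A
      · simp [hj]
      · have : j ≠ i := fun h => hj (h ▸ hi)
        simp [hj, this]
    rw [e3, prod_union (disjoint_compl_right.mono_left (erase_subset i A)), hμ, ← card_compl,
      ← prod_const]
    congr 1
    exact prod_congr rfl fun j hj =>
      v.map_sub_eq_of_lt_right ((h1 j (mem_compl.1 hj)).trans_lt (h2 i hi))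
  rw [← prod_mul_prod_compl A, e1, prod_mul_distrib, prod_congr rfl e2, prod_mul_distrib,
    prod_const, prod_pow] at hx
  have e4 : c ^ μ * (∏ i ∈ A, v (γ i)) ^ μ = 1 := by rw [← mul_pow, h4, one_pow]
  have e5 : c * c ^ (Fintype.card ι - 1) = c ^ μ * c ^ A.card := by
    rw [← pow_succ', ← pow_add]
    congr 1
    omega
  calc x * c ^ 2 = c * (c * x) := by rw [pow_two]; ac_rfl
    _ = (c * c ^ (Fintype.card ι - 1)) * (c ^ A.card * ((∏ i ∈ A, ∏ j ∈ A.erase i, v (γ j - γ i)) *
        (∏ i ∈ A, v (γ i)) ^ μ) * w ^ μ) := by rw [hx]; exact (mul_assoc _ _ _).symm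
    _ = (c ^ μ * (∏ i ∈ A, v (γ i)) ^ μ) * (c ^ A.card * c ^ A.card * w ^ μ *
        ∏ i ∈ A, ∏ j ∈ A.erase i, v (γ j - γ i)) := by rw [e5]; ac_rfl
    _ = _ := by rw [e4, one_mul, ← pow_add, two_mul]

theorem val_nat_le (m : ℕ) : O.valuation (m : K) ≤ 1 := by
  simp

theorem val_nat_lt_iff (m : ℕ) : O.valuation (m : K) < 1 ↔ (m : ResidueField O) = 0 := by
  have := val_lt_one_iff (m : O)
  rw [map_natCast] at this
  simpa using this

theorem no_cancel [CharZero K] {f : O[X]} {n k : ℕ} (hk1 : 2 ≤ k) (hk2 : k + 2 ≤ n)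
    (hg : ∀ t, t ≤ n → t ≠ k → Gen (f.map (residue O)) t) {γ γ' : K} {Γ Γ' : O}
    (h1 : (Γ : K) = γ * ((k : K) * f.coeff 0) ^ k)
    (h2 : residue O Γ = residue O (f.coeff 0) * residue O (f.coeff 1) ^ k)
    (h3 : (Γ' : K) = γ' * (((n - k : ℕ) : K) * f.coeff n) ^ (n - k))
    (h4 : residue O Γ' = residue O (f.coeff n) * residue O (f.coeff (n - 1)) ^ (n - k))
    (hST : O.valuation (k : K) ^ k = O.valuation ((n - k : ℕ) : K) ^ (n - k)) :
    O.valuation (γ - γ') * O.valuation (k : K) ^ k = 1 := by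
  set v := O.valuation with hv
  have hne : ∀ t, t ≤ n → t ≠ k → residue O (f.coeff t) ≠ 0 := fun t h1 h2 => by
    have := (hg t h1 h2).ne_zero
    rwa [coeff_map] at this
  have hpos : 0 < Nat.gcd (k ^ k) ((n - k) ^ (n - k)) :=
    Nat.gcd_pos_of_pos_left _ (pow_pos (by omega) _)
  obtain ⟨u, u', hcop, hu, hu'⟩ := Nat.exists_coprime (k ^ k) ((n - k) ^ (n - k))
  set g := Nat.gcd (k ^ k) ((n - k) ^ (n - k))
  have hu1 : (k : K) ^ k = u * g := by exact_mod_cast hu
  have hu2 : ((n - k : ℕ) : K) ^ (n - k) = u' * g := by exact_mod_cast hu'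
  have hg0 : v (g : K) ≠ 0 := by
    rw [Valuation.ne_zero_iff]
    exact_mod_cast hpos.ne'
  have huu : v (u : K) = v (u' : K) := by
    rw [← map_pow, ← map_pow, hu1, hu2, map_mul, map_mul] at hST
    exact mul_right_cancel₀ hg0 hST
  have hu'0 : (u' : ResidueField O) ≠ 0 := by
    intro h
    have h5 : (u : ResidueField O) = 0 := by
      rw [← val_nat_lt_iff, ← hv, huu]
      exact (val_nat_lt_iff u').2 h
    have h6 : IsCoprime (u : ResidueField O) (u' : ResidueField O) := hcop.cast
    rw [h, h5] at h6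
    exact not_isCoprime_zero_zero h6
  have hvu' : v (u' : K) = 1 := by
    refine le_antisymm (val_nat_le u') (not_lt.1 fun h => hu'0 ((val_nat_lt_iff u').1 h))
  let Z : O := Γ * u' * f.coeff n ^ (n - k) - u * Γ' * f.coeff 0 ^ k
  have hZ : (Z : K) = (γ - γ') * (k : K) ^ k *
      ((f.coeff 0 : K) ^ k * u' * (f.coeff n : K) ^ (n - k)) := by
    simp only [Z]
    push_cast
    rw [h1, h3, mul_pow, mul_pow, hu1, hu2]
    ring
  have hZr : residue O Z ≠ 0 := by
    intro h
    obtain ⟨E, e1, e2, e3⟩ := hg 1 (by omega) (by omega)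
    simp only [coeff_map] at e1 e2
    have m0 := e1 0 (by omega)
    have mn := e1 n (by omega)
    have mn1 := e1 (n - 1) (by omega)
    have hc : residue O (f.coeff 0) * u' * residue O (f.coeff n) ^ (n - k) ≠ 0 :=
      mul_ne_zero (mul_ne_zero (hne 0 (by omega) (by omega)) hu'0)
        (pow_ne_zero _ (hne n le_rfl (by omega)))
    refine e2 (e3 (C (residue O (f.coeff 0) * u' * residue O (f.coeff n) ^ (n - k)) * X ^ k -
      C (u * (residue O (f.coeff n) * residue O (f.coeff (n - 1)) ^ (n - k)) *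
        residue O (f.coeff 0) ^ k)) ?_ (fun i => ?_) _ ?_)
    · intro h0
      have := congrArg (fun P => P.coeff k) h0
      simp only [coeff_sub, coeff_C_mul, coeff_X_pow_self, mul_one, coeff_zero,
        coeff_C_of_ne_zero (show k ≠ 0 by omega), sub_zero] at this
      exact hc this
    · rw [coeff_sub, coeff_C_mul, coeff_X_pow, coeff_C]
      refine sub_mem (mul_mem (mul_mem (mul_mem m0 (natCast_mem E _)) (pow_mem mn _)) ?_) ?_
      · split_ifs
        · exact E.one_mem
        · exact E.zero_mem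
      · split_ifs
        · exact mul_mem (mul_mem (natCast_mem E _) (mul_mem mn (pow_mem mn1 _))) (pow_mem m0 _)
        · exact E.zero_mem
    · simp only [Z, map_sub, map_mul, map_pow, map_natCast, h2, h4] at h
      simp only [eval_sub, eval_mul, eval_C, eval_pow, eval_X]
      linear_combination h
  have h5 := (val_eq_one_iff Z).2 hZr
  rw [hZ, map_mul, map_mul, map_mul, map_mul, map_pow, map_pow, map_pow,
    (val_eq_one_iff _).2 (hne 0 (by omega) (by omega)),
    (val_eq_one_iff _).2 (hne n le_rfl (by omega)), ← hv, hvu'] at h5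
  simpa using h5

open Classical in
theorem val_discr [IsAlgClosed K] [CharZero K] {f : O[X]} {n k : ℕ} (hn : 2 ≤ n) (hk : 2 * k ≤ n)
    (hf : f.natDegree ≤ n) (hg : ∀ t, t ≤ n → t ≠ k → Gen (f.map (residue O)) t) {D : K[X]}
    (hD : ∀ y, D.eval y = discr (f.map (algebraMap O K) + C y * X ^ k)) :
    D.natDegree = (if k = 0 then n - 1 else n) ∧
    O.valuation (discr D) = O.valuation 2 ^ (2 * ((if k = 0 then n - 1 else n) -
        ((if k ≠ 0 ∧ O.valuation (k : K) < 1 then 1 else 0) +
          if O.valuation ((n - k : ℕ) : K) < 1 then 1 else 0))) *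
      max (O.valuation (k : K) ^ k) (O.valuation ((n - k : ℕ) : K) ^ (n - k)) ^ 2 := by
  set v := O.valuation with hv
  set fK := f.map (algebraMap O K) with hfK
  have hkn : k < n := by omega
  have hne : ∀ t, t ≤ n → t ≠ k → residue O (f.coeff t) ≠ 0 := fun t h1 h2 => by
    have := (hg t h1 h2).ne_zero
    rwa [coeff_map] at this
  have hv1 : ∀ t, t ≤ n → t ≠ k → v (fK.coeff t) = 1 := fun t h1 h2 => by
    rw [hfK, coeff_map]
    exact (val_eq_one_iff _).2 (hne t h1 h2)
  have hK0 : ∀ t, t ≤ n → t ≠ k → fK.coeff t ≠ 0 := fun t h1 h2 h3 => by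
    have := hv1 t h1 h2
    rw [h3, map_zero] at this
    exact zero_ne_one this
  have hfKdeg : fK.natDegree = n :=
    natDegree_eq_of_le_of_coeff_ne_zero (natDegree_map_le.trans hf) (hK0 n le_rfl hkn.ne')
  set d : ℕ := if k = 0 then n - 1 else n with hd
  set e : ℕ := if k = 0 then 1 else 0 with he
  have hde : d + e = n := by
    simp only [hd, he]
    split_ifs <;> omega
  have hd0 : 0 < d := by
    simp only [hd]
    split_ifs <;> omega
  let NO : O[X] := if k = 0 then derivative f else crit k f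
  have hNO : ∀ i, NO.coeff i = (((i + e : ℕ) : O) - k) * f.coeff (i + e) := fun i => by
    simp only [NO, he]
    split_ifs with h
    · rw [coeff_derivative, h]
      push_cast
      ring
    · rw [coeff_crit, add_zero]
  set N := NO.map (algebraMap O K) with hNdef
  have hN : (k = 0 ∧ N = derivative fK) ∨ (k ≠ 0 ∧ N = crit k fK) := by
    by_cases h : k = 0
    · exact Or.inl ⟨h, by simp only [hNdef, NO, if_pos h, hfK, derivative_map]⟩
    · exact Or.inr ⟨h, by simp only [hNdef, NO, if_neg h, hfK, crit_map]⟩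
  have hNc : ∀ i, N.coeff i = (((i + e : ℕ) : K) - k) * fK.coeff (i + e) := fun i => by
    rw [hNdef, coeff_map, hNO, hfK, coeff_map, map_mul, map_sub, map_natCast, map_natCast]
  have hNr : ∀ i, (NO.map (residue O)).coeff i =
      (((i + e : ℕ) : ResidueField O) - k) * residue O (f.coeff (i + e)) := fun i => by
    rw [coeff_map, hNO, map_mul, map_sub, map_natCast, map_natCast]
  have hNd : N.coeff d = ((n - k : ℕ) : K) * fK.coeff n := by
    rw [hNc, hde, Nat.cast_sub hkn.le]
  have hnk0 : ((n - k : ℕ) : K) ≠ 0 := by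
    have : n - k ≠ 0 := by omega
    exact_mod_cast this
  have hNOdeg : NO.natDegree ≤ d := natDegree_le_iff_coeff_eq_zero.2 fun i hi => by
    rw [hNO, coeff_eq_zero_of_natDegree_lt (by omega), mul_zero]
  have hNdeg : N.natDegree = d := natDegree_eq_of_le_of_coeff_ne_zero
    (natDegree_map_le.trans hNOdeg) (by rw [hNd]; exact mul_ne_zero hnk0 (hK0 n le_rfl hkn.ne'))
  obtain ⟨β, hβ⟩ := exists_split N hNdeg
  set ν := N.leadingCoeff with hν
  have hν1 : ν = ((n - k : ℕ) : K) * fK.coeff n := by rw [hν, leadingCoeff, hNdeg, hNd]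
  have hν0 : ν ≠ 0 := by
    rw [hν1]
    exact mul_ne_zero hnk0 (hK0 n le_rfl hkn.ne')
  have hvν : v ν = v ((n - k : ℕ) : K) := by rw [hν1, map_mul, hv1 n le_rfl hkn.ne', mul_one]
  have hN0 : N.coeff 0 = ν * ∏ j, (-β j) := by
    rw [coeff_zero_eq_eval_zero, hβ]
    simp [eval_prod]
  have hek : e ≠ k := by
    simp only [he]
    split_ifs <;> omega
  have hβ0 : ∀ j, β j ≠ 0 := by
    intro j hj
    rw [prod_eq_zero (mem_univ j) (by simp [hj]), mul_zero, hNc, zero_add] at hN0
    refine mul_ne_zero (sub_ne_zero.2 ?_) (hK0 e (by omega) hek) hN0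
    exact_mod_cast hek
  have hroot : ∀ j, (crit k fK).eval (β j) = 0 := fun j => by
    have h0 : N.eval (β j) = 0 := by
      rw [hβ, eval_mul, eval_prod, prod_eq_zero (mem_univ j) (by simp), mul_zero]
    rcases hN with ⟨h1, h⟩ | ⟨_, h⟩
    · simp [crit, ← h, h0, h1]
    · rw [← h, h0]
  let γ : Fin d → K := fun j => fK.eval (β j) / β j ^ k
  have hγ : ∀ j, γ j * β j ^ k = fK.eval (β j) := fun j =>
    div_mul_cancel₀ _ (pow_ne_zero k (hβ0 j))
  obtain ⟨m, hm⟩ := discr_pencil hfKdeg hkn hN hν0 hβ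
  set a' : K := fK.coeff n * (if k = 0 then 1 else fK.coeff 0) with ha'
  have hva' : v a' = 1 := by
    rw [ha', map_mul, hv1 n le_rfl hkn.ne', one_mul]
    split_ifs with h
    · exact map_one v
    · exact hv1 0 (by omega) (Ne.symm h)
  have ha'0 : a' ≠ 0 := by
    intro h
    rw [h, map_zero] at hva'
    exact zero_ne_one hva'
  set c : K := (-1) ^ m * ν ^ n * (∏ j, β j ^ k) / a' with hc
  have hc0 : c ≠ 0 := div_ne_zero (mul_ne_zero (mul_ne_zero (pow_ne_zero _ (by simp))
    (pow_ne_zero _ hν0)) (prod_ne_zero_iff.2 fun j _ => pow_ne_zero k (hβ0 j))) ha'0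
  have hDc : D = C c * ∏ j, (X - C (-γ j)) := by
    apply Polynomial.funext
    intro y
    apply mul_left_cancel₀ ha'0
    rw [hD, hm y, eval_mul, eval_C, eval_prod, hc, ← mul_assoc, mul_div_cancel₀ _ ha'0,
      mul_assoc _ (∏ j, β j ^ k), ← prod_mul_distrib]
    congr 1
    refine prod_congr rfl fun j _ => ?_
    rw [← hγ j]
    simp only [eval_sub, eval_X, eval_C]
    ring
  have hvc : v c = v ν ^ n * ∏ j, v (β j) ^ k := by
    simp [hc, hva']
  set S := v (k : K) ^ k with hS
  set T := v ((n - k : ℕ) : K) ^ (n - k) with hT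
  have hvc2 : v c = S * T := by
    rw [hvc, prod_pow]
    by_cases h : k = 0
    · simp [hS, hT, h, hvν]
    · have h1 := congrArg v hN0
      have he0 : e = 0 := if_neg h
      rw [hNc, he0, map_mul, map_mul, map_prod, hv1 0 (by omega) (Ne.symm h)] at h1
      simp only [Nat.cast_zero, add_zero, zero_sub, Valuation.map_neg, mul_one] at h1
      have h2 : v ν ^ n = v ν ^ (n - k) * v ν ^ k := by rw [← pow_add, Nat.sub_add_cancel hkn.le]
      rw [hS, hT, h1, h2, mul_pow, ← hvν]
      ac_rfl
  have hx : v c * v (discr D) = v c ^ (Fintype.card (Fin d) - 1) *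
      ∏ i, (v c * ∏ j ∈ univ.erase i, v (γ j - γ i)) := by
    have h1 := congrArg v (discr_split hc0 (fun j => -γ j) (by simpa using hd0))
    rw [← hDc] at h1
    simp only [map_mul, map_pow, map_prod, Valuation.map_neg, map_one, one_pow, one_mul,
      neg_sub_neg] at h1
    exact h1
  have hmid : ∀ i, v (β i) = 1 → v c * ∏ j ∈ univ.erase i, v (γ j - γ i) = v 2 ^ 2 := by
    intro i hi
    rw [← mid_root hn hk hf hg hN hβ i hi (hγ i), hvc, ← mul_prod_erase univ _ (mem_univ i), hi,
      one_pow, one_mul, mul_assoc, ← prod_mul_distrib]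
    congr 1
    refine prod_congr rfl fun j _ => ?_
    rw [← map_pow, ← map_mul, ← hγ j]
    congr 1
    ring
  have hmid' : ∀ i, v (β i) = 1 → v (γ i) ≤ 1 := by
    intro i hi
    have h1 := congrArg v (hγ i)
    obtain ⟨b, hb⟩ : ∃ b : O, (b : K) = β i := ⟨⟨β i, (O.valuation_le_one_iff _).1 hi.le⟩, rfl⟩
    rw [map_mul, map_pow, hi, one_pow, mul_one, ← hb, hfK, coe_eval] at h1
    rw [h1]
    exact O.valuation_le_one _
  have hNr1 : (NO.map (residue O)).coeff (k + 1 - e) ≠ 0 := by
    have : k + 1 - e + e = k + 1 := by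
      simp only [he]
      split_ifs <;> omega
    rw [hNr, this]
    simpa using hne (k + 1) hkn (by omega)
  have hNr0 : NO.map (residue O) ≠ 0 := fun h => hNr1 (by rw [h, coeff_zero])
  set sm := univ.filter fun j => v (β j) < 1 with hsm
  set lg := univ.filter fun j => 1 < v (β j) with hlg
  have hcs : sm.card = if k ≠ 0 ∧ v (k : K) < 1 then 1 else 0 := by
    rw [hsm, card_small hNr0 hβ]
    split_ifs with h
    · have he0 : e = 0 := if_neg h.1
      have hk0 := (val_nat_lt_iff k).1 h.2
      have hk1 : 1 ≠ k := by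
        rintro rfl
        simp at hk0
      apply le_antisymm
      · apply natTrailingDegree_le_of_ne_zero
        rw [hNr, he0, hk0]
        simpa using hne 1 (by omega) hk1
      · refine le_natTrailingDegree hNr0 fun i hi => ?_
        obtain rfl : i = 0 := by omega
        rw [hNr, he0, hk0]
        simp
    · apply Nat.eq_zero_of_le_zero
      apply natTrailingDegree_le_of_ne_zero
      rw [hNr, zero_add]
      refine mul_ne_zero ?_ (hne e (by omega) hek)
      by_cases h0 : k = 0
      · have he1 : e = 1 := if_pos h0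
        simp [he1, h0]
      · have he0 : e = 0 := if_neg h0
        rw [he0, Nat.cast_zero, zero_sub, neg_ne_zero]
        exact fun h1 => h ⟨h0, (val_nat_lt_iff k).2 h1⟩
  have hcl : lg.card = if v ((n - k : ℕ) : K) < 1 then 1 else 0 := by
    have h1 := card_integral hNr0 hβ
    have h2 := card_filter_add_card_filter_not (s := (univ : Finset (Fin d)))
      fun j => v (β j) ≤ 1
    simp only [not_le] at h2
    rw [card_univ, Fintype.card_fin, h1, ← hlg] at h2
    have h3 : (NO.map (residue O)).natDegree ≤ d := natDegree_map_le.trans hNOdeg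
    have h4 : (NO.map (residue O)).coeff d =
        ((n - k : ℕ) : ResidueField O) * residue O (f.coeff n) := by
      rw [hNr, hde, Nat.cast_sub hkn.le]
    split_ifs with h
    · have hk0 := (val_nat_lt_iff _).1 h
      have hk1 : n - 1 ≠ k := by
        intro h5
        have : n - k = 1 := by omega
        rw [this] at hk0
        simp at hk0
      have h5 : (NO.map (residue O)).natDegree ≠ d := by
        intro h5
        rw [hk0, zero_mul, ← h5, coeff_natDegree, leadingCoeff_eq_zero] at h4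
        exact hNr0 h4
      have h6 : d - 1 ≤ (NO.map (residue O)).natDegree := by
        apply le_natDegree_of_ne_zero
        have h7 : d - 1 + e = n - 1 := by omega
        rw [hNr, h7]
        refine mul_ne_zero ?_ (hne (n - 1) (by omega) hk1)
        rw [Nat.cast_sub hkn.le] at hk0
        rw [Nat.cast_sub (by omega)]
        intro h8
        apply one_ne_zero (α := ResidueField O)
        push_cast at h8
        linear_combination hk0 - h8
      omega
    · have h5 : d ≤ (NO.map (residue O)).natDegree := by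
        apply le_natDegree_of_ne_zero
        rw [h4]
        exact mul_ne_zero (fun h6 => h ((val_nat_lt_iff _).2 h6)) (hne n le_rfl hkn.ne')
      omega
  have hsmall : k ≠ 0 → ∀ i ∈ sm, v (γ i) * S = 1 ∧ ∃ Γ : O,
      (Γ : K) = γ i * ((k : K) * f.coeff 0) ^ k ∧
      residue O Γ = residue O (f.coeff 0) * residue O (f.coeff 1) ^ k := by
    intro hk0 i hi
    have hi' := (mem_filter.1 hi).2
    obtain ⟨b, hb⟩ : ∃ b : O, (b : K) = β i := ⟨⟨β i, (O.valuation_le_one_iff _).1 hi'.le⟩, rfl⟩
    have h1 := hroot i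
    rw [hfK, ← crit_map, ← hb, coe_eval] at h1
    obtain ⟨h2, Γ, h3, h4⟩ := small_root (hne 0 (by omega) (Ne.symm hk0))
      ((val_lt_one_iff b).1 (hb ▸ hi')) (by exact_mod_cast h1) (γ := γ i)
      (by rw [← coe_eval, hb, hγ])
    refine ⟨?_, Γ, h3, h4⟩
    have hk1 : 1 ≠ k := by
      rintro rfl
      simp at h2
    have h5 := (val_eq_one_iff Γ).2 (h4 ▸ mul_ne_zero (hne 0 (by omega) (Ne.symm hk0))
      (pow_ne_zero _ (hne 1 (by omega) hk1)))
    rw [h3, map_mul, map_pow, map_mul,
      (val_eq_one_iff _).2 (hne 0 (by omega) (Ne.symm hk0)), mul_one] at h5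
    exact h5
  have hlarge : ∀ i ∈ lg, v (γ i) * T = 1 ∧ ∃ Γ : O,
      (Γ : K) = γ i * (((n - k : ℕ) : K) * f.coeff n) ^ (n - k) ∧
      residue O Γ = residue O (f.coeff n) * residue O (f.coeff (n - 1)) ^ (n - k) := by
    intro i hi
    obtain ⟨h2, Γ, h3, h4⟩ := large_root hf hkn (hne n le_rfl hkn.ne') (mem_filter.1 hi).2
      (hroot i) (hγ i)
    refine ⟨?_, Γ, h3, h4⟩
    have hk1 : n - 1 ≠ k := by
      intro h5
      have : n - k = 1 := by omega
      rw [this] at h2
      simp at h2
    have h5 := (val_eq_one_iff Γ).2 (h4 ▸ mul_ne_zero (hne n le_rfl hkn.ne')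
      (pow_ne_zero _ (hne (n - 1) (by omega) hk1)))
    rw [h3, map_mul, map_pow, map_mul, (val_eq_one_iff _).2 (hne n le_rfl hkn.ne'), mul_one] at h5
    exact h5
  have hS1 : ¬(k ≠ 0 ∧ v (k : K) < 1) → S = 1 := by
    intro h
    by_cases h0 : k = 0
    · simp [hS, h0]
    · have : v (k : K) = 1 := le_antisymm (val_nat_le k) (not_lt.1 fun h1 => h ⟨h0, h1⟩)
      simp [hS, this]
  have hT1 : ¬(v ((n - k : ℕ) : K) < 1) → T = 1 := by
    intro h
    have : v ((n - k : ℕ) : K) = 1 := le_antisymm (val_nat_le _) (not_lt.1 h)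
    simp only [hT, this, one_pow]
  have hS2 : k ≠ 0 ∧ v (k : K) < 1 → S < 1 := fun h => pow_lt_one₀ zero_le h.2 h.1
  have hT2 : v ((n - k : ℕ) : K) < 1 → T < 1 := fun h => pow_lt_one₀ zero_le h (by omega)
  have hgt : ∀ {a b : O.ValueGroup}, a * b = 1 → b < 1 → 1 < a := by
    intro a b h1 h2
    by_contra h3
    exact absurd h1 (mul_lt_one_of_nonneg_of_lt_one_right (not_lt.1 h3) zero_le h2).ne
  have hout : ∀ i, i ∉ sm ∪ lg → v (β i) = 1 := by
    intro i hi
    simp only [hsm, hlg, mem_union, mem_filter, mem_univ, true_and, not_or, not_lt] at hi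
    exact le_antisymm hi.2 hi.1
  have hvc0 : v c ≠ 0 := (Valuation.ne_zero_iff v).2 hc0
  have key := fun h2 h4 => assemble v γ (sm ∪ lg) (fun i hi => hmid' i (hout i hi)) h2
    (fun i hi => hmid i (hout i hi)) h4 (by simpa using hd0) hx
  refine ⟨by rw [hDc, natDegree_split hc0, Fintype.card_fin], ?_⟩
  rw [Fintype.card_fin] at key
  rw [pow_mul]
  by_cases h1 : k ≠ 0 ∧ v (k : K) < 1 <;> by_cases h2 : v ((n - k : ℕ) : K) < 1
  · rw [if_pos h1] at hcs ⊢
    rw [if_pos h2] at hcl ⊢
    obtain ⟨s, hs⟩ := card_eq_one.1 hcs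
    obtain ⟨l, hl⟩ := card_eq_one.1 hcl
    have hs' : s ∈ sm := hs ▸ mem_singleton_self s
    have hl' : l ∈ lg := hl ▸ mem_singleton_self l
    have hsl : s ≠ l := by
      rintro rfl
      exact lt_asymm (mem_filter.1 hs').2 (mem_filter.1 hl').2
    obtain ⟨a1, Γ, a2, a3⟩ := hsmall h1.1 s hs'
    obtain ⟨b1, Γ', b2, b3⟩ := hlarge l hl'
    have hA : sm ∪ lg = {s, l} := by rw [hs, hl]; rfl
    have hW : v (γ s - γ l) * (S * T) = max S T := by
      rcases lt_trichotomy S T with h | h | h
      · have : v (γ l) < v (γ s) := by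
          by_contra h3
          have h4 : v (γ s) * S < v (γ l) * T :=
            mul_lt_mul_of_le_of_lt_of_nonneg_of_pos (not_lt.1 h3) h zero_le
              (zero_lt_one.trans (hgt b1 (hT2 h2)))
          rw [a1, b1] at h4
          exact lt_irrefl _ h4
        rw [v.map_sub_eq_of_lt_left this, ← mul_assoc, a1, one_mul, max_eq_right h.le]
      · have hk1 : k ≠ 1 := by
          rintro rfl
          simp at h1
        have hk2 : n - k ≠ 1 := by
          intro h5
          rw [h5] at h2
          simp at h2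
        have := no_cancel (by omega) (by omega) hg a2 a3 b2 b3 h
        rw [← mul_assoc, this, one_mul, h, max_self]
      · have : v (γ s) < v (γ l) := by
          by_contra h3
          have h4 : v (γ l) * T < v (γ s) * S :=
            mul_lt_mul_of_le_of_lt_of_nonneg_of_pos (not_lt.1 h3) h zero_le
              (zero_lt_one.trans (hgt a1 (hS2 h1)))
          rw [a1, b1] at h4
          exact lt_irrefl _ h4
        rw [v.map_sub_eq_of_lt_right this, mul_comm S, ← mul_assoc, b1, one_mul,
          max_eq_left h.le]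
    rw [hA] at key
    have h3 := key (by
      intro i hi
      rcases mem_insert.1 hi with rfl | hi
      · exact hgt a1 (hS2 h1)
      · rw [mem_singleton.1 hi]
        exact hgt b1 (hT2 h2)) (by
      rw [prod_pair hsl, hvc2, mul_mul_mul_comm, mul_comm S, mul_comm T, a1, b1, mul_one])
    rw [prod_pair hsl, card_pair hsl, erase_insert (by simpa using hsl), pair_comm,
      erase_insert (by simpa using hsl.symm), prod_singleton, prod_singleton,
      v.map_sub_swap (γ l)] at h3
    apply mul_right_cancel₀ (pow_ne_zero 2 hvc0)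
    rw [h3, ← hW, ← hvc2]
    simp only [pow_succ, pow_zero, one_mul]
    ac_rfl
  · rw [if_pos h1] at hcs ⊢
    rw [if_neg h2] at hcl ⊢
    obtain ⟨s, hs⟩ := card_eq_one.1 hcs
    have hs' : s ∈ sm := hs ▸ mem_singleton_self s
    obtain ⟨a1, -⟩ := hsmall h1.1 s hs'
    rw [hs, card_eq_zero.1 hcl, union_empty] at key
    have h3 := key (by
      intro i hi
      rw [mem_singleton.1 hi]
      exact hgt a1 (hS2 h1)) (by rw [prod_singleton, hvc2, hT1 h2, mul_one, mul_comm, a1])
    apply mul_right_cancel₀ (pow_ne_zero 2 hvc0)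
    rw [h3, hT1 h2, max_eq_right (hS2 h1).le]
    simp [mul_comm]
  · rw [if_neg h1] at hcs ⊢
    rw [if_pos h2] at hcl ⊢
    obtain ⟨l, hl⟩ := card_eq_one.1 hcl
    have hl' : l ∈ lg := hl ▸ mem_singleton_self l
    obtain ⟨b1, -⟩ := hlarge l hl'
    rw [hl, card_eq_zero.1 hcs, empty_union] at key
    have h3 := key (by
      intro i hi
      rw [mem_singleton.1 hi]
      exact hgt b1 (hT2 h2)) (by rw [prod_singleton, hvc2, hS1 h1, one_mul, mul_comm, b1])
    apply mul_right_cancel₀ (pow_ne_zero 2 hvc0)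
    rw [h3, hS1 h1, max_eq_left (hT2 h2).le]
    simp [mul_comm]
  · rw [if_neg h1] at hcs ⊢
    rw [if_neg h2] at hcl ⊢
    rw [card_eq_zero.1 hcl, card_eq_zero.1 hcs, empty_union] at key
    have h4 : v c = 1 := by rw [hvc2, hS1 h1, hT1 h2, mul_one]
    have h3 := key (by simp) (by simp [h4])
    rw [hS1 h1, hT1 h2]
    simpa [h4] using h3

end Pool.Agent.Lib.MP_77c30a_nt
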