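import Mathlib

/-! The double discriminant and its integer content. -/

namespace Pool.Agent.Lib.MP_77c30a_nt

/-- The general polynomial `a_0 + a_1 x + ... + a_n x ^ n` over `ℤ[a_0, ..., a_n]`. -/
noncomputable def genPoly (n : ℕ) : Polynomial (MvPolynomial (Fin (n + 1)) ℤ) :=
  ∑ i : Fin (n + 1), Polynomial.monomial (i : ℕ) (MvPolynomial.X i)

/-- An element of `ℤ[a_0, ..., a_n]` regarded as a polynomial in the single variable `a_k` with
coefficients in `ℤ[a_i : i ≠ k]`. -/
noncomputable def asPolyIn (n : ℕ) (k : Fin (n + 1)) (g : MvPolynomial (Fin (n + 1)) ℤ) :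
    Polynomial (MvPolynomial {i : Fin (n + 1) // i ≠ k} ℤ) :=
  MvPolynomial.aeval
    (fun i : Fin (n + 1) =>
      if h : i = k then (Polynomial.X : Polynomial (MvPolynomial {i : Fin (n + 1) // i ≠ k} ℤ))
      else Polynomial.C (MvPolynomial.X ⟨i, h⟩)) g

/-- The double discriminant `DD_{n,k}`. -/
noncomputable def doubleDisc (n : ℕ) (k : Fin (n + 1)) :
    MvPolynomial {i : Fin (n + 1) // i ≠ k} ℤ :=
  (asPolyIn n k (genPoly n).discr).discr

/-- The greatest common divisor `c_{n,k}` of the integer coefficients of `DD_{n,k}`. -/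
noncomputable def ddContent (n : ℕ) (k : Fin (n + 1)) : ℕ :=
  (doubleDisc n k).support.gcd fun m => ((doubleDisc n k).coeff m).natAbs

end Pool.Agent.Lib.MP_77c30a_nt
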