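import Mathlib

/-! A derivation argument: critical values of a generic member of a pencil are distinct. -/

open Polynomial

namespace Pool.Agent.Lib.MP_77c30a_nt

theorem isSeparable_of_simple {F κ : Type*} [Field F] [Field κ] [Algebra F κ] {P : F[X]} {β : κ}
    (h0 : aeval β P = 0) (h1 : aeval β (derivative P) ≠ 0) : IsSeparable F β := by
  have hP : P ≠ 0 := by
    rintro rfl
    simp at h1
  have hint : IsIntegral F β := (show IsAlgebraic F β from ⟨P, hP, h0⟩).isIntegral
  obtain ⟨q, hq⟩ := minpoly.dvd F β h0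
  refine (separable_iff_derivative_ne_zero (minpoly.irreducible hint)).2 fun h => h1 ?_
  rw [hq, derivative_mul, h]
  simp

open scoped IntermediateField IntermediateField.algebraAdjoinAdjoin TensorProduct in
theorem kaehler_ne_zero {E κ : Type*} [Field E] [Field κ] [Algebra E κ] {t : κ}
    (ht : Transcendental E t) (t' : separableClosure E⟮t⟯ κ) (ht' : (t' : κ) = t) :
    KaehlerDifferential.D E (separableClosure E⟮t⟯ κ) t' ≠ 0 := by
  let A := Algebra.adjoin E {t}
  let L := separableClosure E⟮t⟯ κ
  have h1 : Algebra.FormallyEtale A E⟮t⟯ :=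
    Algebra.FormallyEtale.of_isLocalization (nonZeroDivisors A)
  have h2 : Algebra.FormallyEtale E⟮t⟯ L := Algebra.FormallyEtale.of_isSeparable _ _
  have h3 : Algebra.FormallyEtale A L := Algebra.FormallyEtale.comp A E⟮t⟯ L
  let e := Polynomial.algEquivOfTranscendental E t ht
  let δ : Derivation E A A := Derivation.liftOfSurjective (f := e.toAlgHom) e.surjective
    (d := Polynomial.derivative') (fun x hx => by
      have : x = 0 := e.injective (by simpa using hx)
      simp [this])
  let tA : A := ⟨t, Algebra.self_mem_adjoin_singleton E t⟩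
  have htA : e X = tA := by
    apply Subtype.ext
    simp [e, tA]
  have hδ : δ tA = 1 := by
    rw [← htA]
    have := Derivation.liftOfSurjective_apply (f := e.toAlgHom) e.surjective
      (d := Polynomial.derivative') (fun x hx => by
      have : x = 0 := e.injective (by simpa using hx)
      simp [this]) X
    simpa using this
  have h4 : algebraMap A L tA = t' := by
    apply Subtype.ext
    rw [ht']
    rfl
  intro h
  have : IsScalarTower E A L := IsScalarTower.of_algebraMap_eq fun _ => rfl
  have h5 := KaehlerDifferential.tensorKaehlerEquivOfFormallyEtale_symm_D_algebraMap E A L tA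
  rw [h4, h, map_zero] at h5
  have h6 := congrArg (fun z => TensorProduct.AlgebraTensorModule.rid A L L
    (LinearMap.lTensor L δ.liftKaehlerDifferential z)) h5
  simp [hδ] at h6

open scoped IntermediateField in
theorem eq_of_double_roots {E κ : Type*} [Field E] [Field κ] [Algebra E κ] (G : E[X]) (k : ℕ)
    {t γ β ρ : κ} (ht : Transcendental E t) {F : κ[X]}
    (hF : F = G.map (algebraMap E κ) + C t * X ^ (k + 1) - C γ * X ^ k)
    (hβ : β ≠ 0) (hβ0 : F.eval β = 0) (hβ1 : F.derivative.eval β = 0)
    (hβ2 : F.derivative.derivative.eval β ≠ 0)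
    (hρ : ρ ≠ 0) (hρ0 : F.eval ρ = 0) (hρ1 : F.derivative.eval ρ = 0)
    (hρ2 : F.derivative.derivative.eval ρ ≠ 0) : β = ρ := by
  let L := separableClosure E⟮t⟯ κ
  let tF : E⟮t⟯ := IntermediateField.AdjoinSimple.gen E t
  let G1 : E⟮t⟯[X] := G.map (algebraMap E E⟮t⟯) + C tF * X ^ (k + 1)
  let N0 : E⟮t⟯[X] := X * derivative G1 - C (k : E⟮t⟯) * G1
  have hG1 : G1.map (algebraMap E⟮t⟯ κ) = F + C γ * X ^ k := by
    simp only [G1, hF, Polynomial.map_add, Polynomial.map_mul, Polynomial.map_pow, map_C, map_X,
      Polynomial.map_map, ← IsScalarTower.algebraMap_eq]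
    simp [tF]
  have hN0 : N0.map (algebraMap E⟮t⟯ κ) = X * derivative F - C (k : κ) * F := by
    simp only [N0, Polynomial.map_sub, Polynomial.map_mul, map_X, map_C, ← derivative_map, hG1]
    rw [derivative_add, derivative_C_mul, derivative_X_pow]
    rcases k with _ | k
    · simp
    · simp only [Nat.add_sub_cancel, map_natCast]
      ring
  have hsep : ∀ x : κ, x ≠ 0 → F.eval x = 0 → F.derivative.eval x = 0 →
      F.derivative.derivative.eval x ≠ 0 → x ∈ L := by
    intro x hx h0 h1 h2
    refine mem_separableClosure_iff.2 (isSeparable_of_simple (P := N0) ?_ ?_)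
    · rw [aeval_def, ← eval_map, hN0]
      simp [h0, h1]
    · rw [aeval_def, ← eval_map, ← derivative_map, hN0]
      simp [h1, h2, hx]
  have hβL := hsep β hβ hβ0 hβ1 hβ2
  have hρL := hsep ρ hρ hρ0 hρ1 hρ2
  have htL : t ∈ L := L.algebraMap_mem tF
  have hγL : γ ∈ L := by
    have h1 : γ = aeval β G1 / β ^ k := by
      rw [aeval_def, ← eval_map, hG1]
      simp [hβ0, hβ]
    rw [h1]
    refine div_mem ?_ (pow_mem hβL k)
    have := (aeval (⟨β, hβL⟩ : L) G1).2
    rwa [← IntermediateField.aeval_coe] at this
  let t' : L := ⟨t, htL⟩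
  let γ' : L := ⟨γ, hγL⟩
  let D := KaehlerDifferential.D E L
  have : IsScalarTower E L κ := IsScalarTower.of_algebraMap_eq fun _ => rfl
  have key : ∀ x : L, (x : κ) ≠ 0 → F.eval (x : κ) = 0 → F.derivative.eval (x : κ) = 0 →
      D γ' = x • D t' := by
    intro x hx h0 h1
    have hx' : x ≠ 0 := fun h => hx (by simp [h])
    have e0 : aeval x G + t' * x ^ (k + 1) - γ' * x ^ k = 0 := by
      apply Subtype.ext
      rw [hF] at h0
      have : ((aeval x G : L) : κ) = aeval (x : κ) G :=
        (aeval_algebraMap_apply κ x G).symm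
      simpa [this, t', γ', eval_map_algebraMap] using h0
    have e1 : aeval x (derivative G) + t' * ((k + 1 : ℕ) * x ^ k) - γ' * (k * x ^ (k - 1)) = 0 := by
      apply Subtype.ext
      rw [hF] at h1
      have : ((aeval x (derivative G) : L) : κ) = aeval (x : κ) (derivative G) :=
        (aeval_algebraMap_apply κ x (derivative G)).symm
      simpa [this, t', γ', eval_map_algebraMap, derivative_X_pow, derivative_map] using h1
    have e2 := congrArg D e0
    rw [map_sub, map_add, Derivation.map_aeval, Derivation.leibniz, Derivation.leibniz,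
      Derivation.leibniz_pow, Derivation.leibniz_pow, map_zero] at e2
    have e3 : x ^ k • (x • D t' - D γ') = 0 := by
      have e4 : (aeval x (derivative G) + t' * ((k + 1 : ℕ) * x ^ k) - γ' * (k * x ^ (k - 1))) • D x
          = 0 := by rw [e1, zero_smul]
      simp only [Nat.add_sub_cancel, ← Nat.cast_smul_eq_nsmul L] at e2
      linear_combination (norm := module) e2 - e4
    rw [smul_eq_zero] at e3
    exact (sub_eq_zero.1 (e3.resolve_left (pow_ne_zero k hx'))).symm
  have k1 := key ⟨β, hβL⟩ hβ hβ0 hβ1
  have k2 := key ⟨ρ, hρL⟩ hρ hρ0 hρ1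
  have k3 : ((⟨β, hβL⟩ : L) - ⟨ρ, hρL⟩) • D t' = 0 := by rw [sub_smul, ← k1, ← k2, sub_self]
  rw [smul_eq_zero] at k3
  have k4 := sub_eq_zero.1 (k3.resolve_right (kaehler_ne_zero ht t' rfl))
  exact congrArg Subtype.val k4

end Pool.Agent.Lib.MP_77c30a_nt
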