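import Pool.Agent.Lib.MP_77c30a_nt.Gen

/-! Product formulas for discriminants. -/

open Polynomial Finset

namespace Pool.Agent.Lib.MP_77c30a_nt

theorem discr_map_of_natDegree_eq {R S : Type*} [CommRing R] [CommRing S] [IsDomain S]
    (φ : R →+* S) (f : R[X]) (h : (f.map φ).natDegree = f.natDegree) :
    (f.map φ).discr = φ f.discr := by
  rcases Nat.eq_zero_or_pos f.natDegree with h0 | h0
  · rw [eq_C_of_natDegree_eq_zero h0]
    simp
  · have h1 := resultant_deriv (natDegree_pos_iff_degree_pos.1 h0)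
    have h2 := resultant_deriv (f := f.map φ) (natDegree_pos_iff_degree_pos.1 (h ▸ h0))
    rw [derivative_map, resultant_map_map, h, h1] at h2
    have h3 : (f.map φ).leadingCoeff = φ f.leadingCoeff := by
      rw [leadingCoeff, h, coeff_map, leadingCoeff]
    have h4 : φ f.leadingCoeff ≠ 0 := by
      rw [← h3, leadingCoeff_ne_zero]
      intro h5
      rw [h5, natDegree_zero] at h
      omega
    rw [h3, map_mul, map_mul, map_pow, map_neg, map_one] at h2
    have h5 : ((-1 : S) ^ (f.natDegree * (f.natDegree - 1) / 2) * φ f.leadingCoeff) ≠ 0 :=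
      mul_ne_zero (pow_ne_zero _ (by simp)) h4
    exact (mul_left_cancel₀ h5 h2).symm

section Split

variable {K : Type*} [Field K] {ι : Type*} [Fintype ι]

theorem natDegree_split {ν : K} (hν : ν ≠ 0) (β : ι → K) :
    (C ν * ∏ j, (X - C (β j))).natDegree = Fintype.card ι := by
  rw [natDegree_C_mul hν, natDegree_prod_of_monic _ _ fun j _ => monic_X_sub_C (β j)]
  simp

theorem leadingCoeff_split (ν : K) (β : ι → K) :
    (C ν * ∏ j, (X - C (β j))).leadingCoeff = ν := by
  rw [leadingCoeff_mul, leadingCoeff_C, (monic_prod_of_monic _ _ fun j _ => monic_X_sub_C (β j)),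
    mul_one]

omit [Fintype ι] in
theorem roots_split {ν : K} (hν : ν ≠ 0) (s : Finset ι) (β : ι → K) :
    (C ν * ∏ j ∈ s, (X - C (β j))).roots = s.val.map β := by
  rw [roots_C_mul _ hν, ← roots_multiset_prod_X_sub_C (s.val.map β), Multiset.map_map]
  rfl

theorem resultant_split {ν : K} (hν : ν ≠ 0) (β : ι → K) (g : K[X]) {m : ℕ}
    (hg : g.natDegree ≤ m) :
    resultant (C ν * ∏ j, (X - C (β j))) g (Fintype.card ι) m = ν ^ m * ∏ j, g.eval (β j) := by
  have h := resultant_eq_prod_eval (C ν * ∏ j, (X - C (β j))) g m hg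
    ((Splits.C ν).mul (Splits.prod fun j _ => Splits.X_sub_C (β j)))
  rw [natDegree_split hν, leadingCoeff_split, roots_split hν, Multiset.map_map] at h
  exact h

theorem eval_derivative_split [DecidableEq ι] (ν : K) (β : ι → K) (i : ι) :
    (derivative (C ν * ∏ j, (X - C (β j)))).eval (β i) = ν * ∏ j ∈ univ.erase i, (β i - β j) := by
  rw [← mul_prod_erase univ _ (mem_univ i)]
  simp [derivative_mul, eval_prod]

theorem exists_enum {α : Type*} (s : Multiset α) {d : ℕ} (hd : s.card = d) :
    ∃ β : Fin d → α, s = Finset.univ.val.map β := by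
  subst hd
  induction s using Quotient.inductionOn with
  | _ l => exact ⟨l.get, ((Fin.univ_val_map l.get).trans (congrArg _ (List.ofFn_get l))).symm⟩

theorem exists_split [IsAlgClosed K] (P : K[X]) {d : ℕ} (hd : P.natDegree = d) :
    ∃ β : Fin d → K, P = C P.leadingCoeff * ∏ j, (X - C (β j)) := by
  have hs := IsAlgClosed.splits P
  obtain ⟨β, hβ⟩ := exists_enum P.roots (hs.natDegree_eq_card_roots.symm.trans hd)
  refine ⟨β, ?_⟩
  conv_lhs => rw [hs.eq_prod_roots, hβ, Multiset.map_map]
  rfl

theorem discr_split [DecidableEq ι] {c : K} (hc : c ≠ 0) (δ : ι → K) (hd : 0 < Fintype.card ι) :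
    (-1) ^ (Fintype.card ι * (Fintype.card ι - 1) / 2) * c * discr (C c * ∏ j, (X - C (δ j))) =
      c ^ (Fintype.card ι - 1) * ∏ i, (c * ∏ j ∈ univ.erase i, (δ i - δ j)) := by
  have h1 := resultant_deriv (f := C c * ∏ j, (X - C (δ j)))
    (natDegree_pos_iff_degree_pos.1 (by rwa [natDegree_split hc]))
  rw [natDegree_split hc, leadingCoeff_split, resultant_split hc] at h1
  · rw [← h1]
    simp only [eval_derivative_split]
  · exact (natDegree_derivative_le _).trans (by rw [natDegree_split hc])

theorem discr_pencil [CharZero K] {f N : K[X]} {n k : ℕ} (hf : f.natDegree = n) (hk : k < n)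
    (hN : (k = 0 ∧ N = derivative f) ∨ (k ≠ 0 ∧ N = crit k f)) {ν : K} (hν : ν ≠ 0) {β : ι → K}
    (hβ : N = C ν * ∏ j, (X - C (β j))) :
    ∃ m : ℕ, ∀ y : K,
      f.coeff n * (if k = 0 then 1 else f.coeff 0) * discr (f + C y * X ^ k) =
        (-1) ^ m * ν ^ n * ∏ j, (f.eval (β j) + y * β j ^ k) := by
  have hcard : N.natDegree = Fintype.card ι := by rw [hβ, natDegree_split hν]
  have hdeg : ∀ y : K, (f + C y * X ^ k).natDegree = n := fun y => by
    rw [natDegree_add_eq_left_of_natDegree_lt, hf]
    exact (natDegree_C_mul_X_pow_le y k).trans_lt (hf ▸ hk)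
  have hlc : ∀ y : K, (f + C y * X ^ k).leadingCoeff = f.coeff n := fun y => by
    rw [leadingCoeff, hdeg, coeff_add, coeff_C_mul, coeff_X_pow, if_neg hk.ne', mul_zero, add_zero]
  have hres : ∀ y : K, resultant (f + C y * X ^ k) N n (Fintype.card ι) =
      (-1) ^ (n * Fintype.card ι) * ν ^ n * ∏ j, (f.eval (β j) + y * β j ^ k) := fun y => by
    rw [resultant_comm, hβ, resultant_split hν β _ (hdeg y).le, mul_assoc]
    simp
  have hder : ∀ y : K, resultant (f + C y * X ^ k) (derivative (f + C y * X ^ k)) n (n - 1) =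
      (-1) ^ (n * (n - 1) / 2) * f.coeff n * discr (f + C y * X ^ k) := fun y => by
    have h1 := resultant_deriv (f := f + C y * X ^ k)
      (natDegree_pos_iff_degree_pos.1 (by rw [hdeg]; omega))
    rwa [hdeg, hlc] at h1
  have hsq : ∀ m : ℕ, ((-1 : K) ^ m) * (-1) ^ m = 1 := fun m => by
    rw [← mul_pow]
    simp
  rcases hN with ⟨rfl, hN⟩ | ⟨hk0, hN⟩
  · refine ⟨n * (n - 1) / 2 + n * Fintype.card ι, fun y => ?_⟩
    have h1 : Fintype.card ι = n - 1 := by
      rw [← hcard, hN, natDegree_derivative, hf]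
    have h2 := hres y
    have h3 := hder y
    have h4 : derivative (f + C y * X ^ 0) = N := by simp [hN]
    rw [h4, ← h1, h2] at h3
    rw [← h1, pow_add, if_pos rfl]
    linear_combination (-(-1) ^ (n * Fintype.card ι / 2)) * h3 -
      f.coeff n * discr (f + C y * X ^ 0) * hsq (n * Fintype.card ι / 2)
  · refine ⟨n * (n - 1) / 2 + n + n * Fintype.card ι, fun y => ?_⟩
    have hn0 : f.coeff n ≠ 0 := by
      rw [← hf, coeff_natDegree, leadingCoeff_ne_zero]
      rintro rfl
      rw [natDegree_zero] at hf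
      omega
    have h1 : Fintype.card ι = n := by
      rw [← hcard, hN]
      apply natDegree_eq_of_le_of_coeff_ne_zero
      · refine natDegree_le_iff_coeff_eq_zero.2 fun i hi => ?_
        rw [coeff_crit, coeff_eq_zero_of_natDegree_lt (hf ▸ hi), mul_zero]
      · rw [coeff_crit]
        refine mul_ne_zero (sub_ne_zero.2 ?_) hn0
        exact_mod_cast hk.ne'
    have h2 := hres y
    have h3 := hder y
    set g := f + C y * X ^ k with hg
    have h4 : N = X * derivative g + g * C (-(k : K)) := by
      rw [hN, ← crit_sub k f (-y), map_neg, neg_mul, sub_neg_eq_add, ← hg, crit, map_neg]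
      ring
    have h5 : (derivative g).natDegree = n - 1 := by rw [natDegree_derivative, hdeg]
    have h6 := resultant_mul_right g X (derivative g) n (hdeg y).le
    rw [natDegree_X, h5, show 1 + (n - 1) = n by omega, h3] at h6
    have h7 : resultant g X n 1 = (-1) ^ n * f.coeff 0 := by
      have := resultant_X_sub_C_right g n 0 (hdeg y).le
      rw [map_zero, sub_zero] at this
      rw [this, ← coeff_zero_eq_eval_zero, hg, coeff_add, coeff_C_mul, coeff_X_pow,
        if_neg (Ne.symm hk0), mul_zero, add_zero]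
    rw [h4, h1, resultant_add_mul_right _ _ _ _ _ (by simp) (hdeg y).le, h6, h7] at h2
    rw [h1, pow_add, pow_add, if_neg hk0]
    linear_combination ((-1) ^ (n * (n - 1) / 2) * (-1) ^ n) * h2 -
      f.coeff n * f.coeff 0 * discr g * (-1) ^ n * (-1) ^ n * hsq (n * (n - 1) / 2) -
      f.coeff n * f.coeff 0 * discr g * hsq n

end Split

end Pool.Agent.Lib.MP_77c30a_nt
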