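import Pool.Agent.Lib.MP_77c30a_nt.Assemble
import Pool.Agent.Lib.MP_77c30a_nt.Defs

/-! The exact `p`-adic valuation of the content of the double discriminant. -/

open Polynomial Finset IsLocalRing

namespace Pool.Agent.Lib.MP_77c30a_nt

theorem exists_valuation {R K : Type*} [CommRing R] [Field K] (ι : R →+* K)
    (hι : Function.Injective ι) (P : Ideal R) [P.IsPrime] :
    ∃ (O : ValuationSubring K) (φ : R →+* O), (∀ x, (φ x : K) = ι x) ∧
      ∀ x, residue O (φ x) = 0 ↔ x ∈ P := by
  have hu : ∀ y : P.primeCompl, IsUnit (ι y) := fun y => by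
    refine IsUnit.mk0 _ fun h => y.2 ?_
    have : (y : R) = 0 := hι (by simpa using h)
    rw [this]
    exact P.zero_mem
  let g : Localization.AtPrime P →+* K := IsLocalization.lift (M := P.primeCompl) hu
  obtain ⟨O, h, hl⟩ := IsLocalRing.exists_factor_valuationRing g
  let g' : Localization.AtPrime P →+* O := g.codRestrict O.toSubring h
  have : IsLocalHom g' := hl
  refine ⟨O, g'.comp (algebraMap R _), fun x => IsLocalization.lift_eq hu x, fun x => ?_⟩
  rw [← not_iff_not, ← ne_eq, residue_ne_zero_iff_isUnit, RingHom.comp_apply, isUnit_map_iff,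
    IsLocalization.AtPrime.isUnit_to_map_iff (Localization.AtPrime P) P x]
  rfl

theorem gen_of_algebraicIndependent {F κ σ : Type*} [Field F] [Field κ] [Algebra F κ]
    {x : σ → κ} (hx : AlgebraicIndependent F x) {g : κ[X]} {t : ℕ} (s : σ)
    (h1 : g.coeff t = x s) (h2 : ∀ i, i ≠ t → g.coeff i = 0 ∨ ∃ s', s' ≠ s ∧ g.coeff i = x s') :
    Gen g t := by
  let L := IntermediateField.adjoin F (x '' {s}ᶜ)
  have ht : Transcendental L (x s) :=
    IntermediateField.transcendental_adjoin_iff.2 (hx.transcendental_adjoin (by simp))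
  let E := algebraicClosure L κ
  refine ⟨E.toSubfield, fun i hi => ?_, ?_, fun P hP hc y hy => ?_⟩
  · rcases h2 i hi with h | ⟨s', hs', h⟩
    · rw [h]
      exact zero_mem _
    · rw [h]
      exact E.algebraMap_mem ⟨x s', IntermediateField.subset_adjoin _ _ ⟨s', hs', rfl⟩⟩
  · rw [h1]
    exact fun h => ht (mem_algebraicClosure_iff.1 h)
  · obtain ⟨Q, hQ⟩ : ∃ Q : E[X], Q.map (algebraMap E κ) = P := by
      rw [← mem_lifts, lifts_iff_coeff_lifts]
      intro i
      exact ⟨⟨_, hc i⟩, rfl⟩
    have h3 : IsAlgebraic E y := ⟨Q, fun h => hP (by rw [← hQ, h, Polynomial.map_zero]),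
      by rw [← eval_map_algebraMap, hQ, hy]⟩
    exact mem_algebraicClosure_iff.2 (h3.restrictScalars L)

theorem coeff_sum_monomial {R : Type*} [Semiring R] {n : ℕ} (a : Fin (n + 1) → R) (i : ℕ) :
    (∑ j : Fin (n + 1), monomial (j : ℕ) (a j)).coeff i =
      if h : i < n + 1 then a ⟨i, h⟩ else 0 := by
  rw [finsetSum_coeff]
  split_ifs with h
  · rw [sum_eq_single ⟨i, h⟩]
    · simp
    · intro j _ hj
      rw [coeff_monomial, if_neg fun h' => hj (Fin.ext h')]
    · simp
  · refine sum_eq_zero fun j _ => ?_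
    rw [coeff_monomial, if_neg]
    have := j.2
    omega

theorem natDegree_sum_monomial {R : Type*} [Semiring R] {n : ℕ} (a : Fin (n + 1) → R) :
    (∑ j : Fin (n + 1), monomial (j : ℕ) (a j)).natDegree ≤ n :=
  natDegree_le_iff_coeff_eq_zero.2 fun i hi => by rw [coeff_sum_monomial, dif_neg (by omega)]

theorem content_valuation {σ : Type*} (p : ℕ) [Fact p.Prime] {G : MvPolynomial σ ℤ}
    (hG : G ≠ 0) : (G.support.gcd fun m => (G.coeff m).natAbs) ≠ 0 ∧
      ∃ G1, G = (p : MvPolynomial σ ℤ) ^
        padicValNat p (G.support.gcd fun m => (G.coeff m).natAbs) * G1 ∧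
        MvPolynomial.map (Int.castRingHom (ZMod p)) G1 ≠ 0 := by
  set c := G.support.gcd fun m => (G.coeff m).natAbs with hc
  have hc0 : c ≠ 0 := by
    intro h
    rw [hc, Finset.gcd_eq_zero_iff] at h
    obtain ⟨m, hm⟩ := MvPolynomial.support_nonempty.2 hG
    exact MvPolynomial.mem_support_iff.1 hm (Int.natAbs_eq_zero.1 (h m hm))
  have key : ∀ q : ℕ, q ∣ c ↔ MvPolynomial.C (q : ℤ) ∣ G := fun q => by
    rw [hc, Finset.dvd_gcd_iff, MvPolynomial.C_dvd_iff_dvd_coeff]
    constructor
    · intro h m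
      by_cases hm : m ∈ G.support
      · exact Int.natCast_dvd.2 (h m hm)
      · rw [MvPolynomial.notMem_support_iff.1 hm]
        exact dvd_zero _
    · exact fun h m _ => Int.natCast_dvd.1 (h m)
  obtain ⟨G1, h1⟩ := (key _).1 (pow_padicValNat_dvd (p := p) (n := c))
  refine ⟨hc0, G1, by simpa using h1, fun h => ?_⟩
  obtain ⟨G2, h2⟩ := (MvPolynomial.C_dvd_iff_zmod p G1).2 h
  refine pow_succ_padicValNat_not_dvd (p := p) hc0 ((key _).2 ⟨G2, ?_⟩)
  rw [h1, h2, ← mul_assoc, ← map_mul]
  push_cast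
  rw [pow_succ]

theorem formula (n : ℕ) (hn : 2 ≤ n) (k : Fin (n + 1)) (hk : 2 * (k : ℕ) ≤ n) (p : ℕ)
    (hp : p.Prime) : ddContent n k ≠ 0 ∧ padicValNat p (ddContent n k) =
      padicValNat p 2 * (2 * ((if (k : ℕ) = 0 then n - 1 else n) -
        ((if (k : ℕ) ≠ 0 ∧ p ∣ k then 1 else 0) + if p ∣ n - k then 1 else 0))) +
      2 * min (padicValNat p k * k) (padicValNat p (n - k) * (n - k)) := by
  have : Fact p.Prime := ⟨hp⟩
  let σ := {i : Fin (n + 1) // i ≠ k}
  let R := MvPolynomial σ ℤ
  let K := AlgebraicClosure (FractionRing R)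
  let ι : R →+* K := (algebraMap (FractionRing R) K).comp (algebraMap R (FractionRing R))
  have hι : Function.Injective ι :=
    (algebraMap (FractionRing R) K).injective.comp (IsFractionRing.injective R _)
  have : CharZero K := (RingHom.charZero_iff hι).1 inferInstance
  let P : Ideal R := RingHom.ker (MvPolynomial.map (Int.castRingHom (ZMod p)))
  have : P.IsPrime := RingHom.ker_isPrime _
  obtain ⟨O, φ, hφ, hP⟩ := exists_valuation ι hι P
  have hp0 : (p : ResidueField O) = 0 := by
    have := (hP (p : R)).2 (by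
      rw [RingHom.mem_ker, map_natCast, ← map_natCast MvPolynomial.C, ZMod.natCast_self, map_zero])
    rwa [map_natCast, map_natCast] at this
  have : CharP (ResidueField O) p := (CharP.charP_iff_prime_eq_zero hp).2 hp0
  let _ : Algebra (ZMod p) (ResidueField O) := ZMod.algebra _ p
  let x : σ → ResidueField O := fun i => residue O (φ (MvPolynomial.X i))
  have hx : AlgebraicIndependent (ZMod p) x := by
    rw [algebraicIndependent_iff]
    intro q hq
    obtain ⟨q0, rfl⟩ := MvPolynomial.map_surjective (Int.castRingHom (ZMod p))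
      (ZMod.ringHom_surjective _) q
    have h1 : (MvPolynomial.aeval (R := ZMod p) x).toRingHom.comp
        (MvPolynomial.map (Int.castRingHom (ZMod p))) = (residue O).comp φ :=
      MvPolynomial.ringHom_ext (fun r => by simp) (fun i => by simp [x])
    exact (hP q0).1 ((RingHom.congr_fun h1 q0).symm.trans hq)
  let f : O[X] := ∑ i : Fin (n + 1), monomial (i : ℕ)
    (if h : i = k then 0 else φ (MvPolynomial.X ⟨i, h⟩))
  have hf : f.natDegree ≤ n := natDegree_sum_monomial _
  have hg : ∀ t, t ≤ n → t ≠ k → Gen (f.map (residue O)) t := by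
    intro t h1 h2
    have h3 : (⟨t, by omega⟩ : Fin (n + 1)) ≠ k := fun h => h2 (congrArg Fin.val h)
    refine gen_of_algebraicIndependent hx ⟨_, h3⟩ ?_ fun i hi => ?_
    · rw [coeff_map, coeff_sum_monomial, dif_pos (by omega), dif_neg h3]
    · rw [coeff_map, coeff_sum_monomial]
      split_ifs with h4 h5
      · exact Or.inl (map_zero _)
      · exact Or.inr ⟨⟨_, h5⟩, fun h => hi (congrArg (fun z : σ => (z.1 : ℕ)) h), rfl⟩
      · exact Or.inl (map_zero _)
  have hkn : (k : ℕ) < n := by omega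
  have hD : ∀ y, ((asPolyIn n k (genPoly n).discr).map ι).eval y =
      discr (f.map (algebraMap O K) + C y * X ^ (k : ℕ)) := by
    intro y
    let ψ : MvPolynomial (Fin (n + 1)) ℤ →+* K := (evalRingHom y).comp ((mapRingHom ι).comp
      (MvPolynomial.aeval (R := ℤ) (fun i : Fin (n + 1) => if h : i = k then (X : R[X])
        else C (MvPolynomial.X ⟨i, h⟩))).toRingHom)
    have h1 : (genPoly n).map ψ = f.map (algebraMap O K) + C y * X ^ (k : ℕ) := by
      ext i
      rw [coeff_add, coeff_map, coeff_map, genPoly, coeff_sum_monomial, coeff_sum_monomial,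
        coeff_C_mul, coeff_X_pow]
      by_cases h2 : i < n + 1
      · rw [dif_pos h2, dif_pos h2]
        by_cases h3 : (⟨i, h2⟩ : Fin (n + 1)) = k
        · have h4 : i = k := congrArg Fin.val h3
          simp [ψ, h4]
        · have h4 : i ≠ k := fun h => h3 (Fin.ext h)
          simp [ψ, h3, h4, hφ]
      · rw [dif_neg h2, dif_neg h2, if_neg (by omega)]
        simp
    have h2 : n ≤ ((genPoly n).map ψ).natDegree := by
      apply le_natDegree_of_ne_zero
      rw [h1, coeff_add, coeff_C_mul, coeff_X_pow, if_neg hkn.ne', mul_zero, add_zero, coeff_map]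
      intro h3
      have h4 := (hg n le_rfl hkn.ne').ne_zero
      rw [coeff_map, alg_inj (h3.trans (map_zero _).symm), map_zero] at h4
      exact h4 rfl
    have h3 : (genPoly n).natDegree ≤ n := natDegree_sum_monomial _
    rw [← h1, discr_map_of_natDegree_eq ψ _
      (le_antisymm natDegree_map_le (h3.trans h2))]
    rfl
  have hv := (val_discr hn hk hf hg hD).2
  rw [discr_map_of_natDegree_eq ι _ (natDegree_map_eq_of_injective hι _)] at hv
  change O.valuation (ι (doubleDisc n k)) = _ at hv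
  set v := O.valuation with hvdef
  set π := v (p : K) with hπ
  have hπ0 : 0 < π := by
    rw [hπ, zero_lt_iff, Valuation.ne_zero_iff]
    exact_mod_cast hp.ne_zero
  have hπ1 : π < 1 := (val_nat_lt_iff p).2 hp0
  have hlt : ∀ m : ℕ, v (m : K) < 1 ↔ p ∣ m := fun m =>
    (val_nat_lt_iff m).trans (CharP.cast_eq_zero_iff _ p m)
  have hnat : ∀ m : ℕ, m ≠ 0 → v (m : K) = π ^ padicValNat p m := by
    intro m hm
    obtain ⟨m', h1⟩ := pow_padicValNat_dvd (p := p) (n := m)
    have h2 : ¬p ∣ m' := by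
      rintro ⟨m'', rfl⟩
      exact pow_succ_padicValNat_not_dvd (p := p) hm ⟨m'', by rw [pow_succ, mul_assoc, ← h1]⟩
    have h3 : v (m' : K) = 1 := le_antisymm (val_nat_le m') (not_lt.1 fun h => h2 ((hlt m').1 h))
    conv_lhs => rw [h1]
    rw [Nat.cast_mul, Nat.cast_pow, map_mul, map_pow, h3, mul_one]
  have hpow : ∀ m : ℕ, v (m : K) ^ m = π ^ (padicValNat p m * m) := by
    intro m
    rcases Nat.eq_zero_or_pos m with rfl | hm
    · simp
    · rw [hnat m hm.ne', pow_mul]
  have hanti := pow_right_strictAnti₀ hπ0 hπ1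
  have h2 : v 2 = π ^ padicValNat p 2 := by
    have := hnat 2 two_ne_zero
    simpa using this
  simp only [hlt] at hv
  rw [hpow, hpow, ← hanti.antitone.map_min, h2, ← pow_mul, ← pow_mul, ← pow_add] at hv
  have hDD : doubleDisc n k ≠ 0 := by
    intro h
    rw [h, map_zero, map_zero] at hv
    exact (pow_pos hπ0 _).ne hv
  obtain ⟨hc0, G1, h3, h4⟩ := content_valuation p hDD
  refine ⟨hc0, hanti.injective ?_⟩
  have h5 : v (ι G1) = 1 := by
    rw [← hφ]
    exact (val_eq_one_iff _).2 fun h => h4 ((hP G1).1 h)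
  have h6 := congrArg (fun z => v (ι z)) h3
  simp only [map_mul, map_pow, map_natCast, h5, mul_one] at h6
  rw [mul_comm 2 (min _ _)]
  exact h6.symm.trans (by convert hv)

end Pool.Agent.Lib.MP_77c30a_nt
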