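import Pool.Agent.Lib.MP_77c30a_nt.Deriv

/-! Consequences of the genericity of the coefficients in the residue field. -/

open Polynomial

namespace Pool.Agent.Lib.MP_77c30a_nt

variable {κ : Type*} [Field κ]

/-- The coefficient of index `t` of `g` is not algebraic over the other coefficients. -/
def Gen (g : κ[X]) (t : ℕ) : Prop :=
  ∃ E : Subfield κ, (∀ i, i ≠ t → g.coeff i ∈ E) ∧ g.coeff t ∉ E ∧
    ∀ P : κ[X], P ≠ 0 → (∀ i, P.coeff i ∈ E) → ∀ x, P.eval x = 0 → x ∈ E

theorem Gen.ne_zero {g : κ[X]} {t : ℕ} (h : Gen g t) : g.coeff t ≠ 0 := by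
  obtain ⟨E, _, h1, _⟩ := h
  intro h2
  exact h1 (h2 ▸ E.zero_mem)

theorem eval_mem {E : Subfield κ} {P : κ[X]} (hP : ∀ i, P.coeff i ∈ E) {x : κ} (hx : x ∈ E) :
    P.eval x ∈ E := by
  rw [eval_eq_sum_range]
  exact sum_mem fun i _ => mul_mem (hP i) (pow_mem hx i)

theorem erase_coeff_mem {E : Subfield κ} {P : κ[X]} {t : ℕ} (hP : ∀ i, i ≠ t → P.coeff i ∈ E)
    (i : ℕ) : (P.erase t).coeff i ∈ E := by
  rw [coeff_erase]
  split_ifs with h
  · exact E.zero_mem
  · exact hP i h

theorem eval_eq_erase (P : κ[X]) (t : ℕ) (x : κ) :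
    P.eval x = P.coeff t * x ^ t + (P.erase t).eval x := by
  conv_lhs => rw [← monomial_add_erase P t]
  rw [eval_add, eval_monomial]

section Crit

variable {R : Type*} [CommRing R]

/-- The polynomial `x g' - k g`, whose nonzero roots are the critical points of `g / x ^ k`. -/
noncomputable def crit (k : ℕ) (g : R[X]) : R[X] := X * derivative g - C (k : R) * g

theorem coeff_X_mul_derivative (g : R[X]) (i : ℕ) :
    (X * derivative g).coeff i = (i : R) * g.coeff i := by
  rcases i with _ | i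
  · simp
  · rw [coeff_X_mul, coeff_derivative]
    push_cast
    ring

theorem coeff_crit (k : ℕ) (g : R[X]) (i : ℕ) :
    (crit k g).coeff i = ((i : R) - k) * g.coeff i := by
  rw [crit, coeff_sub, coeff_X_mul_derivative, coeff_C_mul]
  ring

theorem crit_sub (k : ℕ) (g : R[X]) (γ : R) : crit k (g - C γ * X ^ k) = crit k g := by
  ext i
  rw [coeff_crit, coeff_crit, coeff_sub, coeff_C_mul, coeff_X_pow]
  split_ifs with h
  · subst h
    ring
  · ring

theorem crit_map {S : Type*} [CommRing S] (φ : R →+* S) (k : ℕ) (g : R[X]) :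
    (crit k g).map φ = crit k (g.map φ) := by
  simp [crit, derivative_map]

/-- The second order operator that kills `x ^ k` and `x ^ (k + 1)`. -/
noncomputable def sec (k : ℕ) (g : R[X]) : R[X] :=
  X ^ 2 * hasseDeriv 2 g - C (k : R) * (X * derivative g) + C (((k + 1).choose 2 : ℕ) : R) * g

theorem two_mul_choose (i : ℕ) : 2 * ((i.choose 2 : ℕ) : ℤ) = i * (i - 1) := by
  induction i with
  | zero => simp
  | succ i ih =>
    rw [Nat.choose_succ_succ' i 1, Nat.choose_one_right]
    push_cast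
    linarith

/-- The eigenvalues of `sec`. -/
def lam (k i : ℕ) : ℤ := (i.choose 2 : ℕ) - k * i + ((k + 1).choose 2 : ℕ)

theorem two_mul_lam (k i : ℕ) : 2 * lam k i = ((i : ℤ) - k) * (i - k - 1) := by
  have h1 := two_mul_choose i
  have h2 := two_mul_choose (k + 1)
  rw [lam]
  push_cast at h2 ⊢
  linarith

theorem coeff_sec (k : ℕ) (g : R[X]) (i : ℕ) :
    (sec k g).coeff i = (lam k i : R) * g.coeff i := by
  have h : (X ^ 2 * hasseDeriv 2 g).coeff i = ((i.choose 2 : ℕ) : R) * g.coeff i := by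
    rcases i with _ | _ | i
    · simp [coeff_X_pow_mul']
    · simp [coeff_X_pow_mul']
    · rw [coeff_X_pow_mul, hasseDeriv_coeff]
  rw [sec, coeff_add, coeff_sub, h, coeff_C_mul, coeff_C_mul, coeff_X_mul_derivative, lam]
  push_cast
  ring

theorem sec_sub (k : ℕ) (g : R[X]) (γ : R) : sec k (g - C γ * X ^ k) = sec k g := by
  ext i
  rw [coeff_sec, coeff_sec, coeff_sub, coeff_C_mul, coeff_X_pow]
  split_ifs with h
  · subst h
    have h1 := two_mul_lam i i
    have h2 : lam i i = 0 := by linarith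
    simp [h2]
  · ring

theorem eval_of_sq_dvd {F : R[X]} {β : R} (h : (X - C β) ^ 2 ∣ F) :
    F.eval β = 0 ∧ F.derivative.eval β = 0 := by
  obtain ⟨H, rfl⟩ := h
  simp [derivative_mul, derivative_pow]

theorem eval_crit_of_sq_dvd (k : ℕ) {F : R[X]} {β : R} (h : (X - C β) ^ 2 ∣ F) :
    (crit k F).eval β = 0 := by
  simp [crit, eval_of_sq_dvd h]

theorem eval_sec_of_cube_dvd (k : ℕ) {F : R[X]} {β : R} (h : (X - C β) ^ 3 ∣ F) :
    (sec k F).eval β = 0 := by
  have h1 := eval_of_sq_dvd ((pow_dvd_pow _ (by norm_num)).trans h)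
  have h2 : (hasseDeriv 2 F).eval β = 0 := by
    obtain ⟨H, rfl⟩ := h
    rw [← taylor_coeff, taylor_mul, taylor_pow]
    simp [coeff_X_pow_mul']
  simp [sec, h1, h2]

end Crit

theorem no_triple_root {g : κ[X]} {n k : ℕ} (hn : 2 ≤ n) (hk : 2 * k ≤ n)
    (hg : ∀ t, t ≤ n → t ≠ k → Gen g t) {β γ : κ} (hβ : β ≠ 0)
    (h : (X - C β) ^ 3 ∣ g - C γ * X ^ k) : False := by
  obtain ⟨E, h1, h2, h3⟩ := hg (k + 1) (by omega) (by omega)
  have e1 := eval_sec_of_cube_dvd k h
  have e2 := eval_crit_of_sq_dvd k ((pow_dvd_pow _ (by norm_num)).trans h)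
  rw [sec_sub] at e1
  rw [crit_sub] at e2
  have hne : sec k g ≠ 0 := by
    intro h0
    rcases k with _ | k
    · have c1 := congrArg (fun P => P.coeff 2) h0
      simp only [coeff_sec, coeff_zero] at c1
      have : lam 0 2 = 1 := by decide
      rw [this] at c1
      exact (hg 2 hn (by omega)).ne_zero (by simpa using c1)
    · have c1 := congrArg (fun P => P.coeff k) h0
      simp only [coeff_sec, coeff_zero] at c1
      have : lam (k + 1) k = 1 := by
        have := two_mul_lam (k + 1) k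
        push_cast at this
        linarith
      rw [this] at c1
      exact (hg k (by omega) (by omega)).ne_zero (by simpa using c1)
  have hβE : β ∈ E := by
    refine h3 _ hne (fun i => ?_) β e1
    rw [coeff_sec]
    by_cases hi : i = k + 1
    · have : lam k i = 0 := by
        have := two_mul_lam k i
        rw [hi] at this ⊢
        push_cast at this
        linarith
      simp [this]
    · exact mul_mem (intCast_mem E _) (h1 i hi)
  rw [eval_eq_erase _ (k + 1), coeff_crit] at e2
  have h4 : ((crit k g).erase (k + 1)).eval β ∈ E := by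
    refine eval_mem (erase_coeff_mem fun i hi => ?_) hβE
    rw [coeff_crit]
    exact mul_mem (sub_mem (natCast_mem E _) (natCast_mem E _)) (h1 i hi)
  apply h2
  have h5 : g.coeff (k + 1) = -((crit k g).erase (k + 1)).eval β / β ^ (k + 1) := by
    push_cast at e2
    field_simp
    linear_combination e2
  rw [h5]
  exact div_mem (neg_mem h4) (pow_mem hβE _)

theorem no_two_double_roots {g : κ[X]} {n k : ℕ} (hn : 3 ≤ n) (hk : 2 * k ≤ n)
    (hg : ∀ t, t ≤ n → t ≠ k → Gen g t) {β ρ γ : κ} (hβ : β ≠ 0) (hne : β ≠ ρ)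
    (h1 : (X - C β) ^ 2 ∣ g - C γ * X ^ k) (h2 : (X - C ρ) ^ 2 ∣ g - C γ * X ^ k) : False := by
  have hρ : ρ ≠ 0 := by
    rintro rfl
    rw [map_zero, sub_zero, X_pow_dvd_iff] at h2
    rcases k with _ | k
    · have := h2 1 (by norm_num)
      exact (hg 1 (by omega) (by omega)).ne_zero (by simpa [coeff_one] using this)
    · have := h2 0 (by norm_num)
      exact (hg 0 (by omega) (by omega)).ne_zero (by simpa [coeff_X_pow] using this)
  have hβ' := eval_of_sq_dvd h1
  have hρ' := eval_of_sq_dvd h2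
  by_cases htwo : (2 : κ) = 0
  · obtain ⟨E, e1, e2, e3⟩ := hg (k + 2) (by omega) (by omega)
    have hN : crit k g ≠ 0 := by
      intro h0
      have c1 := congrArg (fun P => P.coeff (k + 1)) h0
      simp only [coeff_crit, coeff_zero] at c1
      exact (hg (k + 1) (by omega) (by omega)).ne_zero (by simpa using c1)
    have hNE : ∀ i, (crit k g).coeff i ∈ E := by
      intro i
      rw [coeff_crit]
      by_cases hi : i = k + 2
      · have : ((i : κ) - k) = 0 := by
          rw [hi]
          push_cast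
          linear_combination htwo
        simp [this]
      · exact mul_mem (sub_mem (natCast_mem E _) (natCast_mem E _)) (e1 i hi)
    have hβE : β ∈ E := e3 _ hN hNE β (by rw [← crit_sub k g γ]; exact eval_crit_of_sq_dvd k h1)
    have hρE : ρ ∈ E := e3 _ hN hNE ρ (by rw [← crit_sub k g γ]; exact eval_crit_of_sq_dvd k h2)
    have a1 := hβ'.1
    have a2 := hρ'.1
    simp only [eval_sub, eval_mul, eval_C, eval_pow, eval_X] at a1 a2
    rw [eval_eq_erase _ (k + 2)] at a1 a2
    have m1 := eval_mem (erase_coeff_mem e1) hβE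
    have m2 := eval_mem (erase_coeff_mem e1) hρE
    apply e2
    have hd : β - ρ ≠ 0 := sub_ne_zero.2 hne
    have h5 : g.coeff (k + 2) = ((g.erase (k + 2)).eval ρ * β ^ k - (g.erase (k + 2)).eval β * ρ ^ k)
        / ((β - ρ) ^ 2 * β ^ k * ρ ^ k) := by
      field_simp
      linear_combination ρ ^ k * a1 - β ^ k * a2 +
        g.coeff (k + 2) * β ^ k * ρ ^ k * (ρ ^ 2 - β * ρ) * htwo
    rw [h5]
    exact div_mem (sub_mem (mul_mem m2 (pow_mem hβE _)) (mul_mem m1 (pow_mem hρE _)))
      (mul_mem (mul_mem (pow_mem (sub_mem hβE hρE) _) (pow_mem hβE _)) (pow_mem hρE _))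
  · obtain ⟨E, e1, e2, e3⟩ := hg (k + 1) (by omega) (by omega)
    have hsecond : ∀ x : κ, x ≠ 0 → (X - C x) ^ 2 ∣ g - C γ * X ^ k →
        (g - C γ * X ^ k).derivative.derivative.eval x ≠ 0 := by
      intro x hx hd h0
      obtain ⟨H, hH⟩ := hd
      rw [hH] at h0
      have h3 : H.eval x = 0 := by
        simpa [derivative_mul, derivative_pow, htwo] using h0
      obtain ⟨Q, hQ⟩ := dvd_iff_isRoot.2 h3
      exact no_triple_root (by omega) hk hg hx (γ := γ) ⟨Q, by rw [hH, hQ]; ring⟩
    have ht : Transcendental E (g.coeff (k + 1)) := by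
      rintro ⟨P, hP, hP0⟩
      refine e2 (e3 (P.map (algebraMap E κ)) (by simpa using hP) (fun i => ?_) _ ?_)
      · rw [coeff_map]
        exact (P.coeff i).2
      · rwa [eval_map_algebraMap]
    obtain ⟨G, hG⟩ : ∃ G : E[X], G.map (algebraMap E κ) = g.erase (k + 1) := by
      rw [← mem_lifts, lifts_iff_coeff_lifts]
      intro i
      exact ⟨⟨_, erase_coeff_mem e1 i⟩, rfl⟩
    refine hne (eq_of_double_roots G k ht (F := g - C γ * X ^ k) (γ := γ) ?_ hβ hβ'.1 hβ'.2
      (hsecond β hβ h1) hρ hρ'.1 hρ'.2 (hsecond ρ hρ h2))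
    rw [hG, C_mul_X_pow_eq_monomial (n := k + 1), add_comm, monomial_add_erase]

end Pool.Agent.Lib.MP_77c30a_nt
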