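import Pool.Agent.Lib.MP_77c30a_nt.Val

/-! The contribution of a critical point that is a unit. -/

open Polynomial Finset IsLocalRing

namespace Pool.Agent.Lib.MP_77c30a_nt

variable {K : Type*} [Field K] {O : ValuationSubring K}

theorem mid_root [IsAlgClosed K] {f : O[X]} {n k : ℕ} (hn : 2 ≤ n) (hk : 2 * k ≤ n)
    (hf : f.natDegree ≤ n) (hg : ∀ t, t ≤ n → t ≠ k → Gen (f.map (residue O)) t) {N : K[X]}
    (hN : (k = 0 ∧ N = derivative (f.map (algebraMap O K))) ∨
      (k ≠ 0 ∧ N = crit k (f.map (algebraMap O K))))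
    {ι : Type*} [Fintype ι] [DecidableEq ι] {ν : K} {β : ι → K}
    (hβ : N = C ν * ∏ j, (X - C (β j))) (i : ι) (hi : O.valuation (β i) = 1) {γ : K}
    (hγ : γ * β i ^ k = (f.map (algebraMap O K)).eval (β i)) :
    O.valuation ν ^ n *
      ∏ j ∈ univ.erase i, O.valuation ((f.map (algebraMap O K)).eval (β j) - γ * β j ^ k) =
        O.valuation 2 ^ 2 := by
  set v := O.valuation with hv
  set fK := f.map (algebraMap O K) with hfK
  obtain ⟨b, hb⟩ : ∃ b : O, (b : K) = β i := ⟨⟨β i, (O.valuation_le_one_iff _).1 hi.le⟩, rfl⟩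
  have hb0 : residue O b ≠ 0 := (val_eq_one_iff b).1 (hb ▸ hi)
  have hβ0 : β i ≠ 0 := by
    intro h
    rw [h, map_zero] at hi
    exact zero_ne_one hi
  obtain ⟨g, hg'⟩ : ∃ g : O, (g : K) = γ := by
    refine ⟨⟨γ, (O.valuation_le_one_iff _).1 ?_⟩, rfl⟩
    have h1 := congrArg v hγ
    rw [map_mul, map_pow, hi, one_pow, mul_one, ← hb, hfK, coe_eval] at h1
    rw [← hv, h1]
    exact O.valuation_le_one _
  set F : O[X] := f - C g * X ^ k with hF
  have hFK : F.map (algebraMap O K) = fK - C γ * X ^ k := by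
    simp [hF, hfK, hg']
  have hFr : F.map (residue O) = f.map (residue O) - C (residue O g) * X ^ k := by
    simp [hF]
  have hNi : N.eval (β i) = 0 := by
    rw [hβ, eval_mul, eval_prod, prod_eq_zero (mem_univ i) (by simp), mul_zero]
  have hF0 : (F.map (algebraMap O K)).eval (β i) = 0 := by
    rw [hFK]
    simp [hγ]
  have hcrit : (crit k (F.map (algebraMap O K))).eval (β i) = 0 := by
    rw [hFK, crit_sub]
    rcases hN with ⟨rfl, h⟩ | ⟨_, h⟩
    · simp [crit, ← h, hNi]
    · rw [← h, hNi]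
  have hF1 : (derivative (F.map (algebraMap O K))).eval (β i) = 0 := by
    simpa [crit, hF0, hβ0] using hcrit
  obtain ⟨H, hH⟩ : (X - C b) ^ 2 ∣ F := by
    apply sq_dvd_of_eval
    · rw [← hb, coe_eval] at hF0
      exact_mod_cast hF0
    · rw [derivative_map, ← hb, coe_eval] at hF1
      exact_mod_cast hF1
  have han : residue O (f.coeff n) ≠ 0 := by
    have := (hg n le_rfl (by omega)).ne_zero
    rwa [coeff_map] at this
  have hFn : F.coeff n = f.coeff n := by
    rw [hF, coeff_sub, coeff_C_mul, coeff_X_pow, if_neg (by omega), mul_zero, sub_zero]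
  have hFdeg : F.natDegree = n := by
    apply natDegree_eq_of_le_of_coeff_ne_zero
    · exact (natDegree_sub_le _ _).trans
        (max_le hf ((natDegree_C_mul_X_pow_le g k).trans (by omega)))
    · rw [hFn]
      intro h
      exact han (by rw [h, map_zero])
  have hmon : ((X - C b) ^ 2).Monic := (monic_X_sub_C b).pow 2
  have hH0 : H ≠ 0 := by
    rintro rfl
    rw [hH, mul_zero, natDegree_zero] at hFdeg
    omega
  have hHdeg : H.natDegree = n - 2 := by
    rw [hH, hmon.natDegree_mul' hH0, natDegree_pow, natDegree_X_sub_C] at hFdeg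
    omega
  have hHlc : H.leadingCoeff = f.coeff n := by
    rw [← hFn, ← hFdeg, coeff_natDegree, hH, leadingCoeff_mul, hmon.leadingCoeff, one_mul]
  have hHr : (H.map (residue O)).natDegree = n - 2 := by
    rw [natDegree_map_of_leadingCoeff_ne_zero _ (hHlc ▸ han), hHdeg]
  have hHr0 : H.map (residue O) ≠ 0 := by
    intro h
    have := congrArg (fun P => P.coeff H.natDegree) h
    simp only [coeff_map, coeff_natDegree, coeff_zero] at this
    exact han (hHlc ▸ this)
  set HK := H.map (algebraMap O K) with hHK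
  obtain ⟨ρ, hρ⟩ := exists_split HK (d := n - 2)
    (by rw [hHK, natDegree_map_eq_of_injective alg_inj, hHdeg])
  have hlcK : v HK.leadingCoeff = 1 := by
    rw [hHK, leadingCoeff_map_of_injective alg_inj, hHlc]
    exact (val_eq_one_iff _).2 han
  have hρO : ∀ l, v (ρ l) ≤ 1 := by
    have h1 := card_integral hHr0 hρ
    rw [hHr] at h1
    have h2 := (card_eq_iff_eq_univ _).1 (h1.trans (Fintype.card_fin _).symm)
    intro l
    have h3 := mem_univ l
    rw [← h2] at h3
    exact (mem_filter.1 h3).2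
  have hFres : f.map (residue O) - C (residue O g) * X ^ k =
      (X - C (residue O b)) ^ 2 * H.map (residue O) := by
    rw [← hFr, hH]
    simp
  have hHb : residue O (H.eval b) ≠ 0 := by
    intro h
    rw [← res_eval] at h
    obtain ⟨Q, hQ⟩ := dvd_iff_isRoot.2 h
    exact no_triple_root hn hk hg hb0 (γ := residue O g) ⟨Q, by rw [hFres, hQ]; ring⟩
  have hFKH : fK - C γ * X ^ k = (X - C (β i)) ^ 2 * HK := by
    rw [← hFK, hH, ← hb]
    simp [hHK]
  set Ni := C ν * ∏ j ∈ univ.erase i, (X - C (β j)) with hNidef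
  have hNN : N = (X - C (β i)) * Ni := by
    rw [hβ, ← mul_prod_erase univ _ (mem_univ i), hNidef]
    ring
  have hNi' : (k = 0 ∧ Ni = 2 * HK + (X - C (β i)) * derivative HK) ∨
      (k ≠ 0 ∧ Ni = X * (2 * HK + (X - C (β i)) * derivative HK) -
        C (k : K) * (X - C (β i)) * HK) := by
    rcases hN with ⟨rfl, h⟩ | ⟨hk0, h⟩
    · refine Or.inl ⟨rfl, mul_left_cancel₀ (X_sub_C_ne_zero (β i)) ?_⟩
      have h1 := congrArg derivative hFKH
      simp only [pow_zero, mul_one, derivative_sub, derivative_C, sub_zero, derivative_mul,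
        derivative_X_sub_C_pow] at h1
      rw [← hNN, h, h1]
      simp only [Nat.cast_ofNat, Nat.add_one_sub_one, pow_one, map_ofNat]
      ring
    · refine Or.inr ⟨hk0, mul_left_cancel₀ (X_sub_C_ne_zero (β i)) ?_⟩
      rw [← hNN, h, ← crit_sub k fK γ, hFKH, crit]
      simp only [derivative_mul, derivative_X_sub_C_pow, Nat.cast_ofNat, Nat.add_one_sub_one,
        pow_one, map_ofNat]
      ring
  have hvH : v (HK.eval (β i)) = 1 := by
    rw [← hb, hHK, coe_eval]
    exact (val_eq_one_iff _).2 hHb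
  have hv1 : v (Ni.eval (β i)) = v 2 := by
    rcases hNi' with ⟨_, h⟩ | ⟨_, h⟩ <;> simp [h, hvH, hi]
  have hv2 : ∀ l, v (Ni.eval (ρ l)) = 1 := by
    intro l
    obtain ⟨r, hr⟩ : ∃ r : O, (r : K) = ρ l := ⟨⟨ρ l, (O.valuation_le_one_iff _).1 (hρO l)⟩, rfl⟩
    have e0 : HK.eval (ρ l) = 0 := by
      rw [hρ, eval_mul, eval_prod, prod_eq_zero (mem_univ l) (by simp), mul_zero]
    have e1 : H.eval r = 0 := by
      rw [← hr, hHK, coe_eval] at e0
      exact_mod_cast e0
    have e2 : (H.map (residue O)).eval (residue O r) = 0 := by rw [res_eval, e1, map_zero]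
    have e3 : residue O b ≠ residue O r := by
      intro h
      rw [← h, res_eval] at e2
      exact hHb e2
    have e4 : v (ρ l - β i) = 1 := by
      rw [← hr, ← hb]
      refine (val_eq_one_iff (r - b)).2 ?_
      rw [map_sub]
      exact sub_ne_zero.2 e3.symm
    have e5 : v ((derivative HK).eval (ρ l)) = 1 := by
      rw [hHK, derivative_map, ← hr, coe_eval, val_eq_one_iff]
      intro h
      rw [← res_eval, ← derivative_map] at h
      have h3 : 3 ≤ n := by
        have := l.2
        omega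
      refine no_two_double_roots h3 hk hg hb0 e3 (γ := residue O g) ⟨_, hFres⟩ ?_
      rw [hFres]
      exact (sq_dvd_of_eval e2 h).mul_left _
    rcases hNi' with ⟨_, h⟩ | ⟨hk0, h⟩
    · simp [h, e0, e4, e5]
    · have e6 : v (ρ l) = 1 := by
        rw [← hr, val_eq_one_iff]
        intro h0
        have h1 := congrArg (eval (residue O r)) hFres
        rw [eval_mul, e2, mul_zero, h0] at h1
        refine (hg 0 (by omega) (Ne.symm hk0)).ne_zero ?_
        rw [coeff_zero_eq_eval_zero]
        simpa [hk0] using h1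
      simp [h, e0, e4, e5, e6]
  have hv3 : ∀ x : K, v (Ni.eval x) = v ν * ∏ j ∈ univ.erase i, v (β j - x) := by
    intro x
    simp only [hNidef, eval_mul, eval_C, eval_prod, eval_sub, eval_X, map_mul, map_prod]
    congr 1
    exact prod_congr rfl fun j _ => v.map_sub_swap _ _
  have hv4 : ∀ j, v (fK.eval (β j) - γ * β j ^ k) =
      v (β j - β i) ^ 2 * ∏ l, v (β j - ρ l) := by
    intro j
    have h1 := congrArg (eval (β j)) hFKH
    rw [hρ] at h1
    simp only [eval_sub, eval_mul, eval_C, eval_pow, eval_X, eval_prod] at h1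
    rw [h1, map_mul, map_mul, map_pow, map_prod, hlcK, one_mul]
  simp only [hv4]
  rw [prod_mul_distrib, prod_pow, prod_comm, ← hv1, hv3, mul_pow]
  have h5 : ∏ l, v (Ni.eval (ρ l)) = 1 := prod_eq_one fun l _ => hv2 l
  simp only [hv3] at h5
  rw [prod_mul_distrib, prod_const, card_univ, Fintype.card_fin] at h5
  have h6 : v ν ^ n = v ν ^ 2 * v ν ^ (n - 2) := by rw [← pow_add, Nat.add_sub_cancel' hn]
  rw [h6, mul_mul_mul_comm, h5, mul_one]

end Pool.Agent.Lib.MP_77c30a_nt
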