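import Pool.Agent.Lib.MP_77c30a_nt.Disc

/-! Reduction of split polynomials over a valuation ring. -/

open Polynomial Finset IsLocalRing

namespace Pool.Agent.Lib.MP_77c30a_nt

variable {K : Type*} [Field K] {O : ValuationSubring K}

theorem val_eq_one_iff (a : O) : O.valuation (a : K) = 1 ↔ residue O a ≠ 0 := by
  rw [residue_ne_zero_iff_isUnit, O.valuation_eq_one_iff]

theorem val_lt_one_iff (a : O) : O.valuation (a : K) < 1 ↔ residue O a = 0 := by
  rw [residue_eq_zero_iff, O.valuation_lt_one_iff]

theorem coe_eval (P : O[X]) (a : O) :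
    (P.map (algebraMap O K)).eval (a : K) = ((P.eval a : O) : K) :=
  eval_map_apply (f := algebraMap O K) a

theorem res_eval (P : O[X]) (a : O) :
    (P.map (residue O)).eval (residue O a) = residue O (P.eval a) :=
  eval_map_apply (f := residue O) a

theorem alg_inj : Function.Injective (algebraMap O K) := Subtype.val_injective

open Classical in
/-- The residue of an element of the field, set to zero outside the valuation ring. -/
noncomputable def rs (O : ValuationSubring K) (x : K) : ResidueField O :=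
  if h : x ∈ O then residue O ⟨x, h⟩ else 0

theorem rs_coe (a : O) : rs O (a : K) = residue O a := by
  rw [rs, dif_pos a.2]

open Classical in
theorem reduce_split {ι : Type*} [Fintype ι] {P : O[X]} (hP : P.map (residue O) ≠ 0) {ν : K}
    {β : ι → K} (h : P.map (algebraMap O K) = C ν * ∏ j, (X - C (β j))) :
    ∃ u : ResidueField O, u ≠ 0 ∧
      P.map (residue O) = C u * ∏ j ∈ univ.filter (fun j => β j ∈ O), (X - C (rs O (β j))) := by
  let l : ι → O[X] := fun j => if h : β j ∈ O then X - C ⟨β j, h⟩ else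
    1 - C ⟨(β j)⁻¹, (O.mem_or_inv_mem _).resolve_left h⟩ * X
  let w : ι → K := fun j => if β j ∈ O then 1 else -(β j)⁻¹
  have hw : ∀ j, w j ≠ 0 := fun j => by
    simp only [w]
    split_ifs with h
    · exact one_ne_zero
    · refine neg_ne_zero.2 (inv_ne_zero fun h0 => h ?_)
      rw [h0]
      exact O.zero_mem
  have h1 : ∀ j, (l j).map (algebraMap O K) = C (w j) * (X - C (β j)) := fun j => by
    simp only [l, w]
    split_ifs with h
    · simp
    · have h0 : β j ≠ 0 := fun h0 => h (h0 ▸ O.zero_mem)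
      have : C (β j)⁻¹ * C (β j) = (1 : K[X]) := by rw [← C_mul, inv_mul_cancel₀ h0, C_1]
      simp only [Polynomial.map_sub, Polynomial.map_one, Polynomial.map_mul, map_C, map_X,
        ValuationSubring.algebraMap_apply, map_neg]
      linear_combination -this
  have h2 : ∀ j, (l j).map (residue O) = if β j ∈ O then X - C (rs O (β j)) else 1 := fun j => by
    simp only [l]
    split_ifs with h
    · simp [rs, h]
    · have h3 : residue O ⟨(β j)⁻¹, (O.mem_or_inv_mem _).resolve_left h⟩ = 0 := by
        rw [residue_eq_zero_iff, ← O.coe_mem_nonunits_iff]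
        exact O.inv_mem_nonunits_iff.2 (Or.inr h)
      simp [h3]
  have h3 : (∏ j, l j).map (residue O) =
      ∏ j ∈ univ.filter (fun j => β j ∈ O), (X - C (rs O (β j))) := by
    rw [Polynomial.map_prod, prod_filter]
    exact prod_congr rfl fun j _ => h2 j
  have h4 : (∏ j, l j).map (algebraMap O K) = C (∏ j, w j) * ∏ j, (X - C (β j)) := by
    rw [Polynomial.map_prod, map_prod, ← prod_mul_distrib]
    exact prod_congr rfl fun j _ => h1 j
  have hW : ∏ j, w j ≠ 0 := prod_ne_zero_iff.2 fun j _ => hw j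
  by_cases hc : ν / ∏ j, w j ∈ O
  · have h5 : P = C ⟨_, hc⟩ * ∏ j, l j := by
      apply Polynomial.map_injective _ alg_inj
      rw [Polynomial.map_mul, map_C, h4, h, ← mul_assoc, ← C_mul,
        ValuationSubring.algebraMap_apply, div_mul_cancel₀ _ hW]
    refine ⟨residue O ⟨_, hc⟩, fun h0 => hP ?_, ?_⟩
    · rw [h5, Polynomial.map_mul, map_C, h0, C_0, zero_mul]
    · rw [h5, Polynomial.map_mul, map_C, h3]
  · exfalso
    have hν : ν ≠ 0 := by
      rintro rfl
      exact hc (by simp)
    have hc' := (O.mem_or_inv_mem _).resolve_left hc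
    have h5 : C ⟨_, hc'⟩ * P = ∏ j, l j := by
      apply Polynomial.map_injective _ alg_inj
      rw [Polynomial.map_mul, map_C, h4, h, ← mul_assoc, ← C_mul,
        ValuationSubring.algebraMap_apply]
      simp only [inv_div, div_mul_cancel₀ _ hν]
    have h6 : residue O ⟨_, hc'⟩ = 0 := by
      rw [residue_eq_zero_iff, ← O.coe_mem_nonunits_iff]
      exact O.inv_mem_nonunits_iff.2 (Or.inr hc)
    have h7 := congrArg (Polynomial.map (residue O)) h5
    rw [Polynomial.map_mul, map_C, h6, C_0, zero_mul, h3] at h7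
    exact (monic_prod_of_monic _ _ fun j _ => monic_X_sub_C (rs O (β j))).ne_zero h7.symm

open Classical in
theorem card_integral {ι : Type*} [Fintype ι] {P : O[X]} (hP : P.map (residue O) ≠ 0) {ν : K}
    {β : ι → K} (h : P.map (algebraMap O K) = C ν * ∏ j, (X - C (β j))) :
    (univ.filter fun j => O.valuation (β j) ≤ 1).card = (P.map (residue O)).natDegree := by
  obtain ⟨u, hu, h1⟩ := reduce_split hP h
  rw [h1, natDegree_C_mul hu, natDegree_prod_of_monic _ _ fun j _ => monic_X_sub_C _]
  simp [O.valuation_le_one_iff]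

open Classical in
theorem card_small {ι : Type*} [Fintype ι] {P : O[X]} (hP : P.map (residue O) ≠ 0) {ν : K}
    {β : ι → K} (h : P.map (algebraMap O K) = C ν * ∏ j, (X - C (β j))) :
    (univ.filter fun j => O.valuation (β j) < 1).card = (P.map (residue O)).natTrailingDegree := by
  obtain ⟨u, hu, h1⟩ := reduce_split hP h
  rw [← rootMultiplicity_eq_natTrailingDegree', ← count_roots, h1, roots_split hu,
    Multiset.count_map, ← Finset.filter_val, Finset.card_val, filter_filter]
  congr 1
  ext j
  simp only [mem_filter, mem_univ, true_and]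
  constructor
  · intro hj
    have hm : β j ∈ O := (O.valuation_le_one_iff _).1 hj.le
    exact ⟨hm, ((rs_coe ⟨β j, hm⟩).trans ((val_lt_one_iff ⟨β j, hm⟩).1 hj)).symm⟩
  · rintro ⟨hm, hj⟩
    exact (val_lt_one_iff ⟨β j, hm⟩).2 ((rs_coe ⟨β j, hm⟩).symm.trans hj.symm)

theorem sq_dvd_of_eval {R : Type*} [CommRing R] {F : R[X]} {b : R} (h0 : F.eval b = 0)
    (h1 : F.derivative.eval b = 0) : (X - C b) ^ 2 ∣ F := by
  obtain ⟨Q, rfl⟩ := dvd_iff_isRoot.2 h0
  have h2 : Q.eval b = 0 := by simpa [derivative_mul] using h1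
  obtain ⟨H, rfl⟩ := dvd_iff_isRoot.2 h2
  exact ⟨H, by ring⟩

theorem small_root {f : O[X]} {k : ℕ} (h0 : residue O (f.coeff 0) ≠ 0) {b : O}
    (hb : residue O b = 0) (hN : (crit k f).eval b = 0) {γ : K}
    (hγ : γ * (b : K) ^ k = ((f.eval b : O) : K)) :
    residue O (k : O) = 0 ∧ ∃ Γ : O, (Γ : K) = γ * ((k : K) * f.coeff 0) ^ k ∧
      residue O Γ = residue O (f.coeff 0) * residue O (f.coeff 1) ^ k := by
  have e1 : (k : O) * f.coeff 0 = b * (divX (crit k f)).eval b := by
    rw [← X_mul_divX_add (crit k f), eval_add, eval_mul, eval_X, eval_C, coeff_crit] at hN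
    push_cast at hN
    linear_combination -hN
  have e2 : residue O (k : O) = 0 := by
    have := congrArg (residue O) e1
    rw [map_mul, map_mul, hb, zero_mul] at this
    exact (mul_eq_zero.1 this).resolve_right h0
  have e3 : ∀ Q : O[X], residue O (Q.eval b) = residue O (Q.coeff 0) := fun Q => by
    rw [← res_eval, hb, ← coeff_zero_eq_eval_zero, coeff_map]
  refine ⟨e2, f.eval b * ((divX (crit k f)).eval b) ^ k, ?_, ?_⟩
  · have e4 : (k : K) * f.coeff 0 = b * ((divX (crit k f)).eval b : O) := by exact_mod_cast e1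
    rw [e4, mul_pow, ← mul_assoc, hγ]
    push_cast
    rfl
  · rw [map_mul, map_pow, e3, e3, coeff_divX, coeff_crit, map_mul, map_sub, e2]
    simp

theorem large_root {f : O[X]} {n k : ℕ} (hf : f.natDegree ≤ n) (hk : k < n)
    (h0 : residue O (f.coeff n) ≠ 0) {β : K} (hβ : 1 < O.valuation β)
    (hN : (crit k (f.map (algebraMap O K))).eval β = 0) {γ : K}
    (hγ : γ * β ^ k = (f.map (algebraMap O K)).eval β) :
    residue O ((n - k : ℕ) : O) = 0 ∧
      ∃ Γ : O, (Γ : K) = γ * (((n - k : ℕ) : K) * f.coeff n) ^ (n - k) ∧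
        residue O Γ = residue O (f.coeff n) * residue O (f.coeff (n - 1)) ^ (n - k) := by
  have hβ0 : β ≠ 0 := by
    rintro rfl
    simp at hβ
  have hβO : β ∉ O := fun h => absurd ((O.valuation_le_one_iff _).2 h) (not_le.2 hβ)
  let b : O := ⟨β⁻¹, (O.mem_or_inv_mem _).resolve_left hβO⟩
  have hb : residue O b = 0 := by
    rw [residue_eq_zero_iff, ← O.coe_mem_nonunits_iff]
    exact O.inv_mem_nonunits_iff.2 (Or.inr hβO)
  let := invertibleOfNonzero hβ0
  have hrefl : ∀ Q : O[X], Q.natDegree ≤ n →
      (((reflect n Q).eval b : O) : K) * β ^ n = (Q.map (algebraMap O K)).eval β := fun Q hQ => by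
    rw [eval_map, ← eval₂_reflect_mul_pow _ β n Q hQ, ← coe_eval, eval_map, invOf_eq_inv]
  have hcrit : crit (n - k) (reflect n f) = -reflect n (crit k f) := by
    ext1 i
    rw [coeff_neg, coeff_crit, coeff_reflect, coeff_reflect, coeff_crit]
    by_cases hi : i ≤ n
    · rw [revAt_le hi, Nat.cast_sub hi, Nat.cast_sub hk.le]
      ring
    · rw [revAt_eq_self_of_lt (by omega), coeff_eq_zero_of_natDegree_lt (by omega)]
      simp
  have hdeg : (crit k f).natDegree ≤ n := natDegree_le_iff_coeff_eq_zero.2 fun i hi => by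
    rw [coeff_crit, coeff_eq_zero_of_natDegree_lt (hf.trans_lt hi), mul_zero]
  have h1 : (crit (n - k) (reflect n f)).eval b = 0 := by
    have := hrefl _ hdeg
    rw [crit_map, hN] at this
    rw [hcrit, eval_neg, neg_eq_zero]
    exact_mod_cast (mul_eq_zero.1 this).resolve_right (pow_ne_zero n hβ0)
  have h2 : γ * (b : K) ^ (n - k) = (((reflect n f).eval b : O) : K) := by
    apply mul_right_cancel₀ (pow_ne_zero n hβ0)
    rw [hrefl f hf, ← hγ]
    have : β ^ n = β ^ (n - k) * β ^ k := by rw [← pow_add, Nat.sub_add_cancel hk.le]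
    rw [this]
    simp only [b, inv_pow]
    field_simp
  have h3 := small_root (f := reflect n f) (k := n - k)
    (by rwa [coeff_reflect, revAt_le (by omega)]) hb h1 h2
  simp only [coeff_reflect, revAt_le (show 0 ≤ n by omega), revAt_le (show 1 ≤ n by omega),
    Nat.sub_zero] at h3
  exact h3

end Pool.Agent.Lib.MP_77c30a_nt
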